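import Pool.Agent.H31.Kn.K21Lower

/-!
# [H70 KQ SL] a maximal intersecting family without transversals of size k-1 stays maximal on larger
ground sets
-/

namespace Pool.Agent.H70.KQ

open Finset
open Pool.Agent.H31.Kn

/-- The embedding of the subsets of `Fin m` into the subsets of `Fin n`. -/
def em {m n : ℕ} (h : m ≤ n) : Finset (Fin m) ↪ Finset (Fin n) :=
  ⟨Finset.map (Fin.castLEEmb h), Finset.map_injective _⟩

theorem lift_max {m n k : ℕ} (h : m ≤ n) (hk : k ≤ m) {F : Finset (Finset (Fin m))}
    (hF : Maximal (IsInt m k) F)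
    (hT : ∀ T0 : Finset (Fin m), T0.card + 1 = k → ∃ B ∈ F, Disjoint T0 B) :
    ∃ F' : Finset (Finset (Fin n)), Maximal (IsInt n k) F' ∧ F'.card = F.card := by
  classical
  refine ⟨F.map (em h), ⟨⟨?_, ?_⟩, ?_⟩, card_map _⟩
  · intro A hA
    obtain ⟨A', hA', rfl⟩ := mem_map.mp hA
    show (A'.map (Fin.castLEEmb h)).card = k
    rw [card_map]
    exact hF.prop.1 A' hA'
  · intro A hA B hB
    obtain ⟨A', hA', rfl⟩ := mem_map.mp hA
    obtain ⟨B', hB', rfl⟩ := mem_map.mp hB
    obtain ⟨x, hx⟩ := hF.prop.2 A' hA' B' hB'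
    rw [mem_inter] at hx
    exact ⟨Fin.castLEEmb h x, mem_inter.mpr ⟨mem_map_of_mem _ hx.1, mem_map_of_mem _ hx.2⟩⟩
  · intro G hG hFG T hTG
    set T0 : Finset (Fin m) := univ.filter (fun x => Fin.castLEEmb h x ∈ T) with hT0
    have hsub : T0.map (Fin.castLEEmb h) ⊆ T := by
      intro y hy
      obtain ⟨x, hx, rfl⟩ := mem_map.mp hy
      exact (mem_filter.mp hx).2
    have hTk : T.card = k := hG.1 T hTG
    have hmeet : ∀ B ∈ F, (T0 ∩ B).Nonempty := by
      intro B hB
      obtain ⟨y, hy⟩ := hG.2 T hTG (em h B) (hFG (mem_map_of_mem _ hB))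
      rw [mem_inter] at hy
      obtain ⟨x, hx, hxy⟩ := mem_map.mp hy.2
      refine ⟨x, mem_inter.mpr ⟨mem_filter.mpr ⟨mem_univ _, ?_⟩, hx⟩⟩
      rw [hxy]
      exact hy.1
    have hcard : T0.card ≤ k := by
      rw [← hTk, ← card_map (Fin.castLEEmb h) (s := T0)]
      exact card_le_card hsub
    rcases Nat.lt_or_ge T0.card k with hlt | hge
    · obtain ⟨T1, h1, h2⟩ := exists_superset_card_eq (s := T0) (n := k - 1) (by omega)
        (by rw [Fintype.card_fin]; omega)
      obtain ⟨B, hB, hdis⟩ := hT T1 (by omega)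
      obtain ⟨x, hx⟩ := hmeet B hB
      rw [mem_inter] at hx
      exact absurd hx.2 (disjoint_left.mp hdis (h1 hx.1))
    · have hc0 : T0.card = k := le_antisymm hcard hge
      have hTe : T0.map (Fin.castLEEmb h) = T :=
        eq_of_subset_of_card_le hsub (by rw [card_map, hTk, hc0])
      have hins : IsInt m k (insert T0 F) := by
        have hself : (T0 ∩ T0).Nonempty := by
          have h3 := hG.2 T hTG T hTG
          rw [inter_self] at h3 ⊢
          rw [← hTe] at h3
          exact (map_nonempty).mp h3
        refine ⟨?_, ?_⟩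
        · intro A hA
          rcases mem_insert.mp hA with h3 | h3
          · rw [h3]
            exact hc0
          · exact hF.prop.1 A h3
        · intro A hA B hB
          rcases mem_insert.mp hA with h3 | h3
          · rcases mem_insert.mp hB with h4 | h4
            · rw [h3, h4]
              exact hself
            · rw [h3]
              exact hmeet B h4
          · rcases mem_insert.mp hB with h4 | h4
            · rw [h4, inter_comm]
              exact hmeet A h3
            · exact hF.prop.2 A h3 B h4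
      have h3 := hF.le_of_ge hins (subset_insert _ _) (mem_insert_self T0 F)
      rw [← hTe]
      exact mem_map_of_mem (em h) h3

end Pool.Agent.H70.KQ
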