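import Pool.Agent.H70.KP.FN

/-!
# [H70 KQ SN] no short transversals

Let P be parameters with (hA) 8 n G0 d exp (-(1 - r_d - del) e tau) < 1 for 1 <= d < j and (hB)
8 n pd 1 exp ((1 + 3 del) r_1 e tau) < exp (2 (1 - del) e tau). At the end of the process: (A) a k-set T that
meets all members of C and is not in C has distance >= j from all of them (low1 and read_G);
(B) there are no two such sets T, T' at distance 1 (low0, the pair sum PS 1 and read_P); (C) two members
of C have distance >= 2 j. So a (k-1)-set T0 meeting all members of C would give n - k + 1 >= 3 sets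
T0 u {x} at mutual distance 1, a contradiction.
-/

namespace Pool.Agent.H70.KQ

open Finset
open Pool.Agent.H70.KG (KS DD S gf up0 up pr pr0)
open Pool.Agent.H70.KP

variable {n k : ℕ}

private theorem inv_all (P : Par n k) (s : ℕ) (hs : s ≤ P.tau) : ∃ σ : Sta n, Inv P s σ := by
  induction s with
  | zero => exact ⟨_, inv_zero P⟩
  | succ s ih =>
    obtain ⟨σ, h⟩ := ih (by omega)
    exact inv_step (by omega) h

private theorem exists_ge {C : Finset (Finset (Fin n))}
    (hC : Pool.Agent.H31.Kn.IsInt n k C) :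
    ∃ F : Finset (Finset (Fin n)), C ⊆ F ∧ Maximal (Pool.Agent.H31.Kn.IsInt n k) F := by
  obtain ⟨F, hCF, hF⟩ := (Set.toFinite {F : Finset (Finset (Fin n)) |
    Pool.Agent.H31.Kn.IsInt n k F}).exists_le_maximal (a := C) hC
  exact ⟨F, hCF, hF⟩

theorem claimA {P : Par n k} {σ : Sta n} (h : Inv P P.tau σ)
    (hA : ∀ d ∈ Ico 1 P.j, 8 * n * P.G0 d *
      Real.exp (-((1 - rr n k d - P.del) * (P.e * P.tau))) < 1)
    {T : Finset (Fin n)} (hT : T ∈ KS n k) (hl : ∀ B ∈ σ.C, ¬ Disjoint T B) (hTC : T ∉ σ.C) :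
    ∀ B ∈ σ.C, P.j ≤ (B \ T).card := by
  intro B hB
  by_contra hlt
  push Not at hlt
  have b := h.base le_rfl
  have hBK := h.sub hB
  have h1 : 1 ≤ (B \ T).card := by
    by_contra h0
    have h2 := eq_of_sd hT hBK (by omega : (B \ T).card = 0)
    rw [h2] at hTC
    exact hTC hB
  have hd : (B \ T).card ∈ Ico 1 P.j := mem_Ico.mpr ⟨h1, hlt⟩
  have h2 := h.low1 T hT hl B hB h1 hlt
  have h3 := read_G b hd
  have h4 := hA _ hd
  set d := (B \ T).card with hdd
  set E := Real.exp (-((1 - rr n k d - P.del) * (P.e * P.tau))) with hE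
  have hE0 : 0 < E := Real.exp_pos _
  have h5 : Real.exp (-(rr n k d * σ.st B)) * σ.y T ≤ P.GG P.tau d σ := by
    unfold Par.GG
    rw [sub_self, mul_zero, zero_div, zero_mul, add_zero]
    have h6 : ∀ A ∈ (KS n k).filter (fun A => (A \ B).card = d), 0 ≤ σ.y A :=
      fun A hA => h.nonneg A (mem_filter.mp hA).1
    have hTB : (T \ B).card = d := by rw [sd_symm hT hBK]
    have h7 : σ.y T ≤ ∑ A ∈ (KS n k).filter (fun A => (A \ B).card = d), σ.y A :=
      single_le_sum h6 (mem_filter.mpr ⟨hT, hTB⟩)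
    refine (mul_le_mul_of_nonneg_left h7 (Real.exp_pos _).le).trans ?_
    have h8 : ∀ B₀ ∈ σ.C, 0 ≤ Real.exp (-(rr n k d * σ.st B₀)) *
        ∑ A ∈ (KS n k).filter (fun A => (A \ B₀).card = d), σ.y A := fun B₀ _ =>
      mul_nonneg (Real.exp_pos _).le (sum_nonneg fun A hA => h.nonneg A (mem_filter.mp hA).1)
    exact single_le_sum (f := fun B₀ => Real.exp (-(rr n k d * σ.st B₀)) *
        ∑ A ∈ (KS n k).filter (fun A => (A \ B₀).card = d), σ.y A) h8 hB
  have h6 : (1 : ℝ) ≤ E * (Real.exp (-(rr n k d * σ.st B)) * σ.y T) := by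
    calc (1 : ℝ) = E * (Real.exp (-(rr n k d * σ.st B)) *
          Real.exp ((1 - rr n k d - P.del) * (P.e * P.tau) + rr n k d * σ.st B)) := by
          rw [hE, ← Real.exp_add, ← Real.exp_add]
          rw [show -((1 - rr n k d - P.del) * (P.e * P.tau)) + (-(rr n k d * σ.st B) +
            ((1 - rr n k d - P.del) * (P.e * P.tau) + rr n k d * σ.st B)) = 0 by ring]
          exact Real.exp_zero.symm
      _ ≤ _ := mul_le_mul_of_nonneg_left
          (mul_le_mul_of_nonneg_left h2 (Real.exp_pos _).le) hE0.le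
  have h7 : E * (Real.exp (-(rr n k d * σ.st B)) * σ.y T) ≤ E * (8 * n * P.G0 d) :=
    mul_le_mul_of_nonneg_left (h5.trans h3) hE0.le
  have h8 : E * (8 * n * P.G0 d) = 8 * n * P.G0 d * E := mul_comm _ _
  linarith

theorem claimB {P : Par n k} {σ : Sta n} (h : Inv P P.tau σ)
    (hA : ∀ d ∈ Ico 1 P.j, 8 * n * P.G0 d *
      Real.exp (-((1 - rr n k d - P.del) * (P.e * P.tau))) < 1)
    (hB : 8 * n * pd n k 1 * Real.exp ((1 + 3 * P.del) * rr n k 1 * (P.e * P.tau)) <
      Real.exp (2 * ((1 - P.del) * (P.e * P.tau))))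
    {T T' : Finset (Fin n)} (hT : T ∈ KS n k) (hT' : T' ∈ KS n k)
    (hl : ∀ B ∈ σ.C, ¬ Disjoint T B) (hl' : ∀ B ∈ σ.C, ¬ Disjoint T' B)
    (hTC : T ∉ σ.C) (hTC' : T' ∉ σ.C) (hd : (T' \ T).card = 1) : False := by
  have b := h.base le_rfl
  have hj := P.hj
  have h1 := h.low0 T hT hl (claimA h hA hT hl hTC)
  have h2 := h.low0 T' hT' hl' (claimA h hA hT' hl' hTC')
  have h3 : Real.exp (2 * ((1 - P.del) * (P.e * P.tau))) ≤ σ.y T * σ.y T' := by
    have h4 : Real.exp (2 * ((1 - P.del) * (P.e * P.tau))) =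
        Real.exp ((1 - P.del) * (P.e * P.tau)) * Real.exp ((1 - P.del) * (P.e * P.tau)) := by
      rw [← Real.exp_add]
      congr 1
      ring
    rw [h4]
    exact mul_le_mul h1 h2 (Real.exp_pos _).le (h.nonneg T hT)
  have h4 : σ.y T * σ.y T' ≤ PS n k 1 σ.y := by
    unfold PS
    have h5 : ∀ A ∈ KS n k, 0 ≤ ∑ B ∈ (KS n k).filter (fun B => (B \ A).card = 1),
        σ.y A * σ.y B := fun A hA => sum_nonneg fun B hB =>
      mul_nonneg (h.nonneg A hA) (h.nonneg B (mem_filter.mp hB).1)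
    have h6 : ∀ B ∈ (KS n k).filter (fun B => (B \ T).card = 1), 0 ≤ σ.y T * σ.y B :=
      fun B hB => mul_nonneg (h.nonneg T hT) (h.nonneg B (mem_filter.mp hB).1)
    have h7 : σ.y T * σ.y T' ≤ ∑ B ∈ (KS n k).filter (fun B => (B \ T).card = 1),
        σ.y T * σ.y B := single_le_sum h6 (mem_filter.mpr ⟨hT', hd⟩)
    exact h7.trans (single_le_sum (f := fun A => ∑ B ∈ (KS n k).filter
      (fun B => (B \ A).card = 1), σ.y A * σ.y B) h5 hT)
  have h5 := PS_le_PP P (le_refl P.tau) 1 h.nonneg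
  have h6 := read_P b (mem_Ico.mpr ⟨le_rfl, by omega⟩ : 1 ∈ Ico 1 (2 * P.j))
  have h7 := mul_le_mul_of_nonneg_left h6
    (Real.exp_pos ((1 + 3 * P.del) * rr n k 1 * (P.e * P.tau))).le
  linarith

private theorem ins_card {T0 : Finset (Fin n)} {x y : Fin n} (hy : y ∉ T0)
    (hxy : x ≠ y) : (insert y T0 \ insert x T0).card = 1 := by
  have h1 : insert y T0 \ insert x T0 = {y} := by
    ext z
    simp only [mem_sdiff, mem_insert, mem_singleton]
    constructor
    · rintro ⟨h1, h2⟩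
      rcases h1 with h1 | h1
      · exact h1
      · exact absurd (Or.inr h1) h2
    · intro h1
      rw [h1]
      refine ⟨Or.inl rfl, ?_⟩
      rintro (h2 | h2)
      · exact hxy h2.symm
      · exact hy h2
  rw [h1, card_singleton]

theorem no_short {P : Par n k} {σ : Sta n} (h : Inv P P.tau σ) (hn : k + 2 ≤ n)
    (hA : ∀ d ∈ Ico 1 P.j, 8 * n * P.G0 d *
      Real.exp (-((1 - rr n k d - P.del) * (P.e * P.tau))) < 1)
    (hB : 8 * n * pd n k 1 * Real.exp ((1 + 3 * P.del) * rr n k 1 * (P.e * P.tau)) <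
      Real.exp (2 * ((1 - P.del) * (P.e * P.tau))))
    (T0 : Finset (Fin n)) (hT0 : T0.card + 1 = k) : ∃ B ∈ σ.C, Disjoint T0 B := by
  by_contra hcon
  push Not at hcon
  have b := h.base le_rfl
  have hc : 3 ≤ (univ \ T0).card := by
    rw [card_sdiff_of_subset (subset_univ _), card_univ, Fintype.card_fin]
    omega
  obtain ⟨W, hW1, hW2⟩ := exists_subset_card_eq hc
  obtain ⟨x, y, z, hxy, hxz, hyz, hWe⟩ := card_eq_three.mp hW2
  have hx : x ∉ T0 := (mem_sdiff.mp (hW1 (by rw [hWe]; simp))).2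
  have hy : y ∉ T0 := (mem_sdiff.mp (hW1 (by rw [hWe]; simp))).2
  have hz : z ∉ T0 := (mem_sdiff.mp (hW1 (by rw [hWe]; simp))).2
  have hK : ∀ u : Fin n, u ∉ T0 → insert u T0 ∈ KS n k := by
    intro u hu
    rw [mem_KS, card_insert_of_notMem hu]
    exact hT0
  have hl : ∀ u : Fin n, ∀ B ∈ σ.C, ¬ Disjoint (insert u T0) B := by
    intro u B hB hd
    exact hcon B hB (disjoint_of_subset_left (subset_insert _ _) hd)
  -- two members of C
  have hCC : ∀ u v : Fin n, u ∉ T0 → v ∉ T0 → u ≠ v → insert u T0 ∈ σ.C → insert v T0 ∈ σ.C →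
      False := by
    intro u v hu hv huv h1 h2
    have h3 := ins_card hv huv
    have hne : insert u T0 ≠ insert v T0 := by
      intro h4
      rw [h4, sdiff_self] at h3
      simp at h3
    have h4 := nobad b h1 h2 hne
    rw [h3] at h4
    have := P.hj
    omega
  -- two sets not in C
  have hNN : ∀ u v : Fin n, u ∉ T0 → v ∉ T0 → u ≠ v → insert u T0 ∉ σ.C → insert v T0 ∉ σ.C →
      False := by
    intro u v hu hv huv h1 h2
    exact claimB h hA hB (hK u hu) (hK v hv) (hl u) (hl v) h1 h2 (ins_card hv huv)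
  by_cases h1 : insert x T0 ∈ σ.C
  · by_cases h2 : insert y T0 ∈ σ.C
    · exact hCC x y hx hy hxy h1 h2
    · by_cases h3 : insert z T0 ∈ σ.C
      · exact hCC x z hx hz hxz h1 h3
      · exact hNN y z hy hz hyz h2 h3
  · by_cases h2 : insert y T0 ∈ σ.C
    · by_cases h3 : insert z T0 ∈ σ.C
      · exact hCC y z hy hz hyz h2 h3
      · exact hNN x z hx hz hxz h1 h3
    · exact hNN x y hx hy hxy h1 h2

private theorem far_part {P : Par n k} {σ : Sta n} (h : Inv P P.tau σ)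
    {F : Finset (Finset (Fin n))} (hFK : F ⊆ KS n k)
    (hal : ∀ T ∈ F, ∀ B ∈ σ.C, ¬ Disjoint T B) :
    ((F.filter (fun T => ∀ B ∈ σ.C, P.j ≤ (B \ T).card)).card : ℝ) ≤
      2 * (n.choose k : ℝ) * Real.exp (-((1 - P.del) * (P.e * P.tau))) := by
  have b := h.base le_rfl
  have h1 : ((F.filter (fun T => ∀ B ∈ σ.C, P.j ≤ (B \ T).card)).card : ℝ) *
      Real.exp ((1 - P.del) * (P.e * P.tau)) ≤ ∑ T ∈ KS n k, σ.y T := by
    rw [← nsmul_eq_mul, ← sum_const]
    refine (sum_le_sum fun T hT => ?_).trans (sum_le_sum_of_subset_of_nonneg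
      (fun T hT => hFK (mem_filter.mp hT).1) (fun T hT _ => h.nonneg T hT))
    obtain ⟨hTF, hTn⟩ := mem_filter.mp hT
    exact h.low0 T (hFK hTF) (hal T hTF) hTn
  have h2 := total b
  have h3 : (1 + P.d1) * (n.choose k : ℝ) ≤ 2 * (n.choose k : ℝ) :=
    mul_le_mul_of_nonneg_right (by linarith [P.d1le, P.del1]) (Nat.cast_nonneg _)
  have h5 : Real.exp ((1 - P.del) * (P.e * P.tau)) *
      Real.exp (-((1 - P.del) * (P.e * P.tau))) = 1 := by
    rw [← Real.exp_add, add_neg_cancel, Real.exp_zero]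
  calc ((F.filter (fun T => ∀ B ∈ σ.C, P.j ≤ (B \ T).card)).card : ℝ)
      = (((F.filter (fun T => ∀ B ∈ σ.C, P.j ≤ (B \ T).card)).card : ℝ) *
          Real.exp ((1 - P.del) * (P.e * P.tau))) *
          Real.exp (-((1 - P.del) * (P.e * P.tau))) := by
        rw [mul_assoc, h5, mul_one]
    _ ≤ _ := mul_le_mul_of_nonneg_right (by linarith) (Real.exp_pos _).le

theorem main_short (P : Par n k) (hn : k + 2 ≤ n)
    (hA : ∀ d ∈ Ico 1 P.j, 8 * n * P.G0 d *
      Real.exp (-((1 - rr n k d - P.del) * (P.e * P.tau))) < 1)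
    (hB : 8 * n * pd n k 1 * Real.exp ((1 + 3 * P.del) * rr n k 1 * (P.e * P.tau)) <
      Real.exp (2 * ((1 - P.del) * (P.e * P.tau)))) :
    ∃ F : Finset (Finset (Fin n)), Maximal (Pool.Agent.H31.Kn.IsInt n k) F ∧
      (∀ T0 : Finset (Fin n), T0.card + 1 = k → ∃ B ∈ F, Disjoint T0 B) ∧
      (F.card : ℝ) ≤ P.tau +
        2 * (n.choose k : ℝ) * Real.exp (-((1 - P.del) * (P.e * P.tau))) := by
  obtain ⟨σ, h⟩ := inv_all P P.tau le_rfl
  obtain ⟨F, hCF, hF⟩ := exists_ge h.int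
  have hFK : F ⊆ KS n k := fun T hT => mem_KS.mpr (hF.prop.1 T hT)
  have hal : ∀ T ∈ F, ∀ B ∈ σ.C, ¬ Disjoint T B := by
    intro T hT B hB hd
    have h1 := hF.prop.2 T hT B (hCF hB)
    rw [disjoint_iff_inter_eq_empty] at hd
    rw [hd] at h1
    exact not_nonempty_empty h1
  refine ⟨F, hF, fun T0 hT0 => ?_, ?_⟩
  · obtain ⟨B, hB1, hB2⟩ := no_short h hn hA hB T0 hT0
    exact ⟨B, hCF hB1, hB2⟩
  · have hcov : F ⊆ σ.C ∪ F.filter (fun T => ∀ B ∈ σ.C, P.j ≤ (B \ T).card) := by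
      intro T hT
      by_cases h1 : T ∈ σ.C
      · exact mem_union_left _ h1
      · exact mem_union_right _ (mem_filter.mpr
          ⟨hT, claimA h hA (hFK hT) (hal T hT) h1⟩)
    have hc1 : F.card ≤ σ.C.card +
        (F.filter (fun T => ∀ B ∈ σ.C, P.j ≤ (B \ T).card)).card :=
      (card_le_card hcov).trans (card_union_le _ _)
    have hc2 : (F.card : ℝ) ≤ (σ.C.card : ℝ) +
        ((F.filter (fun T => ∀ B ∈ σ.C, P.j ≤ (B \ T).card)).card : ℝ) := by
      exact_mod_cast hc1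
    have hc3 : (σ.C.card : ℝ) ≤ P.tau := by exact_mod_cast h.card
    have hc5 := far_part h hFK hal
    linarith

end Pool.Agent.H70.KQ
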