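import Pool.Agent.H70.KQ.ST
import Pool.Agent.H70.KQ.SN
import Pool.Agent.H70.KQ.SL
import Pool.Agent.H70.KP.RE

/-!
# [H70 KQ SF] all k <= n/3
-/

namespace Pool.Agent.H70.KQ

open Finset Filter
open Pool.Agent.H70.KG (DD)
open Pool.Agent.H70.KP
open Pool.Agent.H31.Kn (IsInt)

theorem sparse_direct {n k : ℕ} (h : HypS n k) :
    ∃ F : Finset (Finset (Fin n)), Maximal (IsInt n k) F ∧
      (∀ T0 : Finset (Fin n), T0.card + 1 = k → ∃ B ∈ F, Disjoint T0 B) ∧
      (F.card : ℝ) ≤ (n : ℝ) ^ 160 * ((n.choose k : ℝ) / DD n k) := by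
  have hk2 : k + 2 ≤ n := by
    have h1 := h.k_small
    have h2 := h.k_ge
    have h3 : (k : ℝ) + 2 ≤ n := by linarith
    exact_mod_cast h3
  obtain ⟨F, hF, hT, hc⟩ := main_short (mkParS h) hk2 (fun d hd => h.hA hd) h.hB
  exact ⟨F, hF, hT, hc.trans h.hC⟩

/-- conditions on `k` satisfied by all large `k`. -/
structure Big (k : ℕ) : Prop where
  h1 : 40 ≤ Real.log k
  h2 : 10000000000 * Real.log k ^ 2 ≤ k

theorem small_k {n k : ℕ} (hb : Big k) (hn : (k : ℝ) ^ 2 ≤ 10000 * n * Real.log n) :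
    ∃ F : Finset (Finset (Fin n)), Maximal (IsInt n k) F ∧
      (F.card : ℝ) ≤ (n : ℝ) ^ 80160 ∧ (F.card : ℝ) ≤ (k : ℝ) ^ 160320 := by
  obtain ⟨hb1, hb2⟩ := hb
  set l := Real.log k with hl
  have hk : (0 : ℝ) < k := by nlinarith
  have hl0 : 0 < l := by linarith
  set x := (k : ℝ) ^ 2 / (20000 * l) with hx
  set m := ⌊x⌋₊ with hm
  have hx0 : 0 ≤ x := by positivity
  have hmx : (m : ℝ) ≤ x := Nat.floor_le hx0
  have hmx2 : x < (m : ℝ) + 1 := Nat.lt_floor_add_one x
  -- x is large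
  have hlk : 10000000000 * l ≤ k := by nlinarith
  have hxk : 2 * (k : ℝ) ≤ x := by
    rw [hx, le_div_iff₀ (by positivity)]
    nlinarith
  have hk1 : (1 : ℝ) ≤ k := by nlinarith
  have hmk : (k : ℝ) ≤ m := by linarith
  have hm0 : (0 : ℝ) < m := by linarith
  have hmhalf : (k : ℝ) ^ 2 / (40000 * l) ≤ m := by
    have h1 : (k : ℝ) ^ 2 / (40000 * l) = x / 2 := by
      rw [hx]
      field_simp
      norm_num
    rw [h1]
    linarith
  have hxk2 : x ≤ (k : ℝ) ^ 2 := by
    rw [hx]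
    refine div_le_self (by positivity) ?_
    linarith
  have hmk2 : (m : ℝ) ≤ (k : ℝ) ^ 2 := hmx.trans hxk2
  have hlogm : Real.log m ≤ 2 * l := by
    have h1 := Real.log_le_log hm0 hmk2
    rw [Real.log_pow] at h1
    push_cast at h1
    exact h1
  have hlogm2 : l ≤ Real.log m := Real.log_le_log hk hmk
  have hS : HypS m k := by
    refine ⟨by linarith, ?_, ?_⟩
    · have h1 : 10000 * (m : ℝ) * Real.log m ≤ 10000 * x * (2 * l) := by
        refine mul_le_mul ?_ hlogm (by linarith) (by positivity)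
        linarith
      have h2 : 10000 * x * (2 * l) = (k : ℝ) ^ 2 := by
        rw [hx]
        field_simp
        norm_num
      linarith
    · have h1 : ((k : ℝ) ^ 2 / (40000 * l)) ^ 2 ≤ (m : ℝ) ^ 2 :=
        pow_le_pow_left₀ (by positivity) hmhalf 2
      refine le_trans ?_ h1
      rw [div_pow, le_div_iff₀ (by positivity)]
      have h2 : (40000 * l) ^ 2 ≤ k := by nlinarith
      calc (k : ℝ) ^ 3 * (40000 * l) ^ 2 ≤ (k : ℝ) ^ 3 * k :=
            mul_le_mul_of_nonneg_left h2 (by positivity)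
        _ = ((k : ℝ) ^ 2) ^ 2 := by ring
  obtain ⟨F, hF, hT, hc⟩ := sparse_direct hS
  have hkm : k ≤ m := by exact_mod_cast hmk
  have hmn : m ≤ n := by
    by_contra hcon
    push Not at hcon
    have hcon' : (n : ℝ) < m := by exact_mod_cast hcon
    have hn0 : (0 : ℝ) < n := by
      rcases Nat.eq_zero_or_pos n with h0 | h0
      · rw [h0] at hn
        simp at hn
        have : (k : ℝ) = 0 := by
          have h4 : k = 0 := by
            by_contra h5
            have h6 : 0 < (k : ℝ) ^ 2 := by positivity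
            simp_all
          rw [h4]
          simp
        linarith
      · exact_mod_cast h0
    have h1 : 20000 * l * (n : ℝ) < (k : ℝ) ^ 2 := by
      have h2 : (n : ℝ) < x := by linarith
      rw [hx, lt_div_iff₀ (by positivity)] at h2
      linarith
    have h2 : 20000 * l * (n : ℝ) < 10000 * n * Real.log n := by linarith
    have h3 : 2 * l < Real.log n := by
      by_contra h4
      push Not at h4
      have h5 : 10000 * (n : ℝ) * Real.log n ≤ 10000 * n * (2 * l) :=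
        mul_le_mul_of_nonneg_left h4 (by positivity)
      linarith
    have h4 : (k : ℝ) ^ 2 < n := by
      have h5 : Real.log ((k : ℝ) ^ 2) < Real.log n := by
        rw [Real.log_pow]
        push_cast
        exact h3
      exact (Real.log_lt_log_iff (by positivity) hn0).mp h5
    linarith
  obtain ⟨F', hF', hc'⟩ := lift_max hmn hkm hF hT
  refine ⟨F', hF', ?_⟩
  rw [hc']
  have hD := hS.D_pos
  have hR : (m.choose k : ℝ) / DD m k ≤ (m : ℝ) ^ 80000 := by
    rw [div_le_iff₀ hD]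
    refine hS.N_le.trans (mul_le_mul_of_nonneg_right ?_ hD.le)
    have h1 : (k : ℝ) ^ 2 / m ≤ 40000 * l := by
      rw [div_le_iff₀ hm0]
      rw [div_le_iff₀ (by positivity)] at hmhalf
      linarith
    have h2 : (m : ℝ) ^ 80000 = Real.exp (((80000 : ℕ) : ℝ) * Real.log m) := by
      rw [Real.exp_nat_mul, Real.exp_log hm0]
    rw [h2]
    refine Real.exp_le_exp.mpr ?_
    push_cast
    linarith
  have hmn' : (m : ℝ) ≤ n := by exact_mod_cast hmn
  have hfin : (F.card : ℝ) ≤ (m : ℝ) ^ 80160 := by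
    calc (F.card : ℝ) ≤ (m : ℝ) ^ 160 * ((m.choose k : ℝ) / DD m k) := hc
      _ ≤ (m : ℝ) ^ 160 * (m : ℝ) ^ 80000 := mul_le_mul_of_nonneg_left hR (by positivity)
      _ = (m : ℝ) ^ 80160 := by rw [← pow_add]
  refine ⟨hfin.trans (pow_le_pow_left₀ (by positivity) hmn' _), hfin.trans ?_⟩
  have h9 : (k : ℝ) ^ 160320 = ((k : ℝ) ^ 2) ^ 80160 := by rw [← pow_mul]
  rw [h9]
  exact pow_le_pow_left₀ (by positivity) hmk2 _

private theorem one_le_R {n k : ℕ} (h : 2 * k ≤ n) :
    (1 : ℝ) ≤ (n.choose k : ℝ) / DD n k := by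
  have hD : (0 : ℝ) < DD n k := by
    unfold Pool.Agent.H70.KG.DD
    exact_mod_cast Nat.choose_pos (by omega)
  rw [one_le_div hD]
  unfold Pool.Agent.H70.KG.DD
  exact_mod_cast Nat.choose_le_choose k (by omega)

private theorem ev_log : ∀ᶠ k : ℕ in atTop, Big k := by
  have h1 : Tendsto (fun k : ℕ => Real.log (k : ℝ)) atTop atTop :=
    Real.tendsto_log_atTop.comp tendsto_natCast_atTop_atTop
  have h2 : ∀ᶠ x : ℝ in atTop, 10000000000 * Real.log x ^ 2 ≤ x := by
    have h3 := Real.isLittleO_pow_log_id_atTop (n := 2)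
    have h4 := h3.bound (by norm_num : (0 : ℝ) < 1 / 10000000000)
    filter_upwards [h4, eventually_ge_atTop (1 : ℝ)] with x hx hx1
    rw [Real.norm_of_nonneg (by positivity), id, Real.norm_of_nonneg (by linarith)] at hx
    linarith
  filter_upwards [h1.eventually_ge_atTop 40,
    tendsto_natCast_atTop_atTop.eventually h2] with k hk1 hk2
  exact ⟨hk1, hk2⟩

private theorem ev_sqrt : ∀ᶠ n : ℕ in atTop, 1000000 * Real.log n ^ 3 ≤ Real.sqrt n := by
  have h2 : ∀ᶠ x : ℝ in atTop, 8000000 * Real.log x ^ 3 ≤ x := by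
    have h3 := Real.isLittleO_pow_log_id_atTop (n := 3)
    have h4 := h3.bound (by norm_num : (0 : ℝ) < 1 / 8000000)
    filter_upwards [h4, eventually_ge_atTop (1 : ℝ)] with x hx hx1
    have h5 : 0 ≤ Real.log x := Real.log_nonneg hx1
    rw [Real.norm_of_nonneg (by positivity), id, Real.norm_of_nonneg (by linarith)] at hx
    linarith
  have h5 : Tendsto (fun n : ℕ => Real.sqrt (n : ℝ)) atTop atTop :=
    Real.tendsto_sqrt_atTop.comp tendsto_natCast_atTop_atTop
  filter_upwards [h5.eventually h2] with n hn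
  rw [Real.log_sqrt (Nat.cast_nonneg n)] at hn
  have h6 : 8000000 * (Real.log n / 2) ^ 3 = 1000000 * Real.log n ^ 3 := by ring
  rw [h6] at hn
  exact hn

/-- For all large `k` and all `n ≥ 3 k`, with a power of `k`. -/
theorem third_k : ∃ C k0 : ℕ, ∀ n k : ℕ, k0 ≤ k → 3 * k ≤ n →
    ∃ F : Finset (Finset (Fin n)), Maximal (IsInt n k) F ∧
      (F.card : ℝ) ≤ (k : ℝ) ^ C * ((n.choose k : ℝ) / ((n - k).choose k : ℝ)) := by
  obtain ⟨k0, hk0⟩ := eventually_atTop.mp ev_log
  obtain ⟨n1, hn1⟩ := eventually_atTop.mp ev_sqrt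
  obtain ⟨n2, hn2⟩ := eventually_atTop.mp ((Real.tendsto_log_atTop.comp
    tendsto_natCast_atTop_atTop).eventually_ge_atTop (40 : ℝ))
  refine ⟨160320, max k0 (max (max n1 n2) 1000000), fun n k hn h3 => ?_⟩
  have hge : k0 ≤ k := (le_max_left _ _).trans hn
  have hn' : max (max n1 n2) 1000000 ≤ k := (le_max_right _ _).trans hn
  have hna : n1 ≤ n := (le_max_left _ _).trans ((le_max_left _ _).trans (hn'.trans (by omega)))
  have hnb : n2 ≤ n := (le_max_right _ _).trans ((le_max_left _ _).trans (hn'.trans (by omega)))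
  have hkc : 1000000 ≤ k := (le_max_right _ _).trans hn'
  have hnc : 1000000 ≤ n := by omega
  have hL : 40 ≤ Real.log n := hn2 n hnb
  have hsq := hn1 n hna
  have hnR : (1 : ℝ) ≤ n := by exact_mod_cast (by omega : 1 ≤ n)
  have hkR : (1 : ℝ) ≤ k := by exact_mod_cast (by omega : 1 ≤ k)
  have hR := one_le_R (n := n) (k := k) (by omega)
  have hdef : (n.choose k : ℝ) / ((n - k).choose k : ℝ) = (n.choose k : ℝ) / DD n k := rfl
  rw [hdef]
  have hbig : (n : ℝ) ≤ (k : ℝ) ^ 2 → ∀ X : ℝ, X ≤ (n : ℝ) ^ 160 * ((n.choose k : ℝ) / DD n k) →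
      X ≤ (k : ℝ) ^ 160320 * ((n.choose k : ℝ) / DD n k) := by
    intro hnk X hX
    refine hX.trans (mul_le_mul_of_nonneg_right ?_ (by linarith))
    have h4 : (n : ℝ) ^ 160 ≤ ((k : ℝ) ^ 2) ^ 160 := pow_le_pow_left₀ (by positivity) hnk _
    rw [← pow_mul] at h4
    exact h4.trans (pow_le_pow_right₀ hkR (by norm_num))
  have hb := hk0 k hge
  rcases le_total ((k : ℝ) ^ 2) (10000 * n * Real.log n) with h1 | h1
  · obtain ⟨F, hF, _, hc⟩ := small_k hb h1
    refine ⟨F, hF, hc.trans ?_⟩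
    have h2 : (0 : ℝ) ≤ (k : ℝ) ^ 160320 := by positivity
    nlinarith
  · have hnk : (n : ℝ) ≤ (k : ℝ) ^ 2 := by
      have h2 : (n : ℝ) * 1 ≤ n * Real.log n := mul_le_mul_of_nonneg_left (by linarith) (by linarith)
      linarith
    rcases le_total (100 * Real.sqrt n * Real.log n) (k : ℝ) with h2 | h2
    · obtain ⟨F, hF, hc⟩ := poly_factor (n := n) (k := k) ⟨hnc, h2, h3⟩
      exact ⟨F, hF, hbig hnk _ hc⟩
    · have hS : HypS n k := by
        refine ⟨hL, h1, ?_⟩
        have hs0 : 0 ≤ Real.sqrt n := Real.sqrt_nonneg _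
        have hss : Real.sqrt n ^ 2 = n := Real.sq_sqrt (by positivity)
        have h4 : (k : ℝ) ^ 3 ≤ (100 * Real.sqrt n * Real.log n) ^ 3 :=
          pow_le_pow_left₀ (Nat.cast_nonneg k) h2 3
        have h5 : (100 * Real.sqrt n * Real.log n) ^ 3 =
            Real.sqrt n ^ 3 * (1000000 * Real.log n ^ 3) := by ring
        have h6 : Real.sqrt n ^ 3 * (1000000 * Real.log n ^ 3) ≤
            Real.sqrt n ^ 3 * Real.sqrt n := mul_le_mul_of_nonneg_left hsq (by positivity)
        have h7 : Real.sqrt n ^ 3 * Real.sqrt n = (n : ℝ) ^ 2 := by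
          calc Real.sqrt n ^ 3 * Real.sqrt n = (Real.sqrt n ^ 2) ^ 2 := by ring
            _ = (n : ℝ) ^ 2 := by rw [hss]
        linarith
      obtain ⟨F, hF, _, hc⟩ := sparse_direct hS
      exact ⟨F, hF, hbig hnk _ hc⟩

/-- For all large `n` and all `k ≤ n / 3`. -/
theorem third : ∃ C n0 : ℕ, ∀ n k : ℕ, n0 ≤ n → 1 ≤ k → 3 * k ≤ n →
    ∃ F : Finset (Finset (Fin n)), Maximal (IsInt n k) F ∧
      (F.card : ℝ) ≤ (n : ℝ) ^ C * ((n.choose k : ℝ) / ((n - k).choose k : ℝ)) := by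
  obtain ⟨k0, hk0⟩ := eventually_atTop.mp ev_log
  obtain ⟨n1, hn1⟩ := eventually_atTop.mp ev_sqrt
  obtain ⟨n2, hn2⟩ := eventually_atTop.mp ((Real.tendsto_log_atTop.comp
    tendsto_natCast_atTop_atTop).eventually_ge_atTop (40 : ℝ))
  refine ⟨max 80160 k0, max (max n1 n2) 1000000, fun n k hn hk h3 => ?_⟩
  have hna : n1 ≤ n := (le_max_left _ _).trans ((le_max_left _ _).trans hn)
  have hnb : n2 ≤ n := (le_max_right _ _).trans ((le_max_left _ _).trans hn)
  have hnc : 1000000 ≤ n := (le_max_right _ _).trans hn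
  have hL : 40 ≤ Real.log n := hn2 n hnb
  have hsq := hn1 n hna
  have hnR : (1 : ℝ) ≤ n := by exact_mod_cast (by omega : 1 ≤ n)
  have hR := one_le_R (n := n) (k := k) (by omega)
  have hpow : ∀ c : ℕ, c ≤ max 80160 k0 → (n : ℝ) ^ c ≤ (n : ℝ) ^ (max 80160 k0) :=
    fun c hc => pow_le_pow_right₀ hnR hc
  have hdef : (n.choose k : ℝ) / ((n - k).choose k : ℝ) = (n.choose k : ℝ) / DD n k := rfl
  rw [hdef]
  have hsmall : ∀ c : ℕ, c ≤ max 80160 k0 → ∀ X : ℝ, X ≤ (n : ℝ) ^ c →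
      X ≤ (n : ℝ) ^ (max 80160 k0) * ((n.choose k : ℝ) / DD n k) := by
    intro c hc X hX
    have h1 := hX.trans (hpow c hc)
    have h2 : (0 : ℝ) ≤ (n : ℝ) ^ (max 80160 k0) := by positivity
    nlinarith
  have hbig : ∀ X : ℝ, X ≤ (n : ℝ) ^ 160 * ((n.choose k : ℝ) / DD n k) →
      X ≤ (n : ℝ) ^ (max 80160 k0) * ((n.choose k : ℝ) / DD n k) := by
    intro X hX
    exact hX.trans (mul_le_mul_of_nonneg_right
      (hpow 160 (le_trans (by norm_num) (le_max_left _ _))) (by linarith))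
  rcases Nat.lt_or_ge k k0 with hlt | hge
  · -- bounded k
    obtain ⟨F, hF⟩ := Pool.Agent.H31.Kn.exists_maximal n k
    refine ⟨F, hF, hsmall k0 (le_max_right _ _) _ ?_⟩
    have h1 : F.card ≤ n.choose k := by
      have h2 : F ⊆ (univ : Finset (Fin n)).powersetCard k := fun A hA =>
        mem_powersetCard.mpr ⟨subset_univ _, hF.prop.1 A hA⟩
      have h4 := card_le_card h2
      rwa [card_powersetCard, card_univ, Fintype.card_fin] at h4
    have h2 : F.card ≤ n ^ k0 :=
      (h1.trans (Nat.choose_le_pow n k)).trans (Nat.pow_le_pow_right (by omega) hlt.le)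
    exact_mod_cast h2
  · have hb := hk0 k hge
    rcases le_total ((k : ℝ) ^ 2) (10000 * n * Real.log n) with h1 | h1
    · obtain ⟨F, hF, hc, _⟩ := small_k hb h1
      exact ⟨F, hF, hsmall 80160 (le_max_left _ _) _ hc⟩
    · rcases le_total (100 * Real.sqrt n * Real.log n) (k : ℝ) with h2 | h2
      · obtain ⟨F, hF, hc⟩ := poly_factor (n := n) (k := k) ⟨hnc, h2, h3⟩
        exact ⟨F, hF, hbig _ hc⟩
      · have hS : HypS n k := by
          refine ⟨hL, h1, ?_⟩
          have hs0 : 0 ≤ Real.sqrt n := Real.sqrt_nonneg _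
          have hss : Real.sqrt n ^ 2 = n := Real.sq_sqrt (by positivity)
          have h4 : (k : ℝ) ^ 3 ≤ (100 * Real.sqrt n * Real.log n) ^ 3 :=
            pow_le_pow_left₀ (Nat.cast_nonneg k) h2 3
          have h5 : (100 * Real.sqrt n * Real.log n) ^ 3 =
              Real.sqrt n ^ 3 * (1000000 * Real.log n ^ 3) := by ring
          have h6 : Real.sqrt n ^ 3 * (1000000 * Real.log n ^ 3) ≤
              Real.sqrt n ^ 3 * Real.sqrt n := mul_le_mul_of_nonneg_left hsq (by positivity)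
          have h7 : Real.sqrt n ^ 3 * Real.sqrt n = (n : ℝ) ^ 2 := by
            calc Real.sqrt n ^ 3 * Real.sqrt n = (Real.sqrt n ^ 2) ^ 2 := by ring
              _ = (n : ℝ) ^ 2 := by rw [hss]
          linarith
        obtain ⟨F, hF, _, hc⟩ := sparse_direct hS
        exact ⟨F, hF, hbig _ hc⟩

end Pool.Agent.H70.KQ
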