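import Pool.Agent.H70.KP.XA

/-!
# [H70 KQ SH] the sparse range k ^ 3 <= n ^ 2, k ^ 2 >= 10 ^ 4 n log n: basic facts
-/

namespace Pool.Agent.H70.KQ

open Pool.Agent.H70.KG (DD)
open Pool.Agent.H70.KP

/-- The sparse range. -/
structure HypS (n k : ℕ) : Prop where
  hL : 40 ≤ Real.log n
  hlow : 10000 * (n : ℝ) * Real.log n ≤ (k : ℝ) ^ 2
  hup : (k : ℝ) ^ 3 ≤ (n : ℝ) ^ 2

variable {n k : ℕ}

theorem HypS.n_pos (h : HypS n k) : (0 : ℝ) < n := by
  by_contra h1
  have h2 : (n : ℝ) = 0 := le_antisymm (not_lt.mp h1) (Nat.cast_nonneg n)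
  have h3 := h.hL
  rw [h2, Real.log_zero] at h3
  norm_num at h3

theorem HypS.n_ge (h : HypS n k) : (1000000000000 : ℝ) ≤ n := by
  have h1 := h.hL
  rw [Real.le_log_iff_exp_le h.n_pos] at h1
  have h2 : (2 : ℝ) ≤ Real.exp 1 := by
    have := Real.exp_one_gt_d9
    linarith
  have h3 : Real.exp 40 = Real.exp 1 ^ 40 := by
    rw [← Real.exp_nat_mul]
    norm_num
  have h4 : (2 : ℝ) ^ 40 ≤ Real.exp 1 ^ 40 := pow_le_pow_left₀ (by norm_num) h2 40
  have h5 : (1000000000000 : ℝ) ≤ 2 ^ 40 := by norm_num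
  linarith

theorem HypS.k_ge (h : HypS n k) : (1000000 : ℝ) ≤ k := by
  have h1 := h.hlow
  have h2 := h.hL
  have h3 := h.n_ge
  have hk : (0 : ℝ) ≤ k := Nat.cast_nonneg k
  have h4 : (1000000 : ℝ) ^ 2 ≤ (k : ℝ) ^ 2 := by
    refine le_trans ?_ h1
    nlinarith
  exact (pow_le_pow_iff_left₀ (by norm_num) hk (by norm_num)).mp h4

theorem HypS.k_pos (h : HypS n k) : (0 : ℝ) < k := by linarith [h.k_ge]

theorem HypS.k_one (h : HypS n k) : 1 ≤ k := by
  have h1 := h.k_pos
  have h2 : 0 < k := by exact_mod_cast h1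
  omega

theorem HypS.log_ratio (h : HypS n k) : Real.log n / 3 ≤ Real.log ((n : ℝ) / k) := by
  have hn := h.n_pos
  have hk := h.k_pos
  have h1 := Real.log_le_log (by positivity) h.hup
  rw [Real.log_pow, Real.log_pow] at h1
  rw [Real.log_div hn.ne' hk.ne']
  push_cast at h1
  linarith

theorem HypS.k_small (h : HypS n k) : 1000 * (k : ℝ) ≤ n := by
  have hn := h.n_pos
  have hk := h.k_pos
  have h1 := h.log_ratio
  have h2 := h.hL
  have h3 : (13 : ℝ) ≤ Real.log ((n : ℝ) / k) := by linarith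
  rw [Real.le_log_iff_exp_le (by positivity)] at h3
  have h4 : (2 : ℝ) ≤ Real.exp 1 := by
    have := Real.exp_one_gt_d9
    linarith
  have h5 : Real.exp 13 = Real.exp 1 ^ 13 := by
    rw [← Real.exp_nat_mul]
    norm_num
  have h6 : (2 : ℝ) ^ 13 ≤ Real.exp 1 ^ 13 := pow_le_pow_left₀ (by norm_num) h4 13
  have h7 : (1000 : ℝ) ≤ 2 ^ 13 := by norm_num
  have h8 : (1000 : ℝ) ≤ (n : ℝ) / k := by linarith
  rw [le_div_iff₀ hk] at h8
  exact h8

theorem HypS.h3 (h : HypS n k) : 3 * k ≤ n := by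
  have h1 := h.k_small
  have h2 := h.k_pos
  have h3 : (3 : ℝ) * k ≤ n := by linarith
  exact_mod_cast h3

/-- `K = k^2/n` is large. -/
theorem HypS.K_ge (h : HypS n k) : 10000 * Real.log n ≤ (k : ℝ) ^ 2 / n := by
  rw [le_div_iff₀ h.n_pos]
  linarith [h.hlow]

theorem HypS.K_le (h : HypS n k) : (k : ℝ) ^ 2 / n ≤ k / 1000 := by
  rw [div_le_div_iff₀ h.n_pos (by norm_num)]
  have h1 := h.k_small
  have h2 := h.k_pos
  nlinarith

theorem HypS.D_pos (h : HypS n k) : 0 < DD n k :=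
  lt_of_lt_of_le (by positivity) (two_pow_le_D h.h3)

theorem HypS.N_pos (h : HypS n k) : (0 : ℝ) < (n.choose k : ℝ) := by
  have := h.h3
  exact_mod_cast Nat.choose_pos (by omega)

theorem HypS.logD_ge (h : HypS n k) : (k : ℝ) * Real.log n / 4 ≤ Real.log (DD n k) := by
  have hn := h.n_pos
  have hk := h.k_pos
  have hD := h.D_pos
  have hks := h.k_small
  have h3 := h.h3
  have h1 := Nat.pow_le_choose (α := ℝ) k (n - k)
  have h2 : ((n - k + 1 - k : ℕ) : ℝ) = (n : ℝ) - 2 * k + 1 := by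
    have h4 : ((n - k + 1 - k : ℕ) : ℝ) = ((n + 1 - 2 * k : ℕ) : ℝ) := by
      congr 1
      omega
    rw [h4, Nat.cast_sub (by omega)]
    push_cast
    ring
  have hfac : ((k.factorial : ℕ) : ℝ) ≤ (k : ℝ) ^ k := by
    exact_mod_cast Nat.factorial_le_pow k
  have h5 : ((n : ℝ) - 2 * k + 1) ^ k ≤ (k : ℝ) ^ k * DD n k := by
    have h6 : ((n : ℝ) - 2 * k + 1) ^ k ≤ (k.factorial : ℝ) * ((n - k).choose k : ℝ) := by
      have h7 : ((n - k + 1 - k : ℕ) : ℝ) ^ k ≤ (k.factorial : ℝ) * ((n - k).choose k : ℝ) := by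
        have h8 : (0 : ℝ) < k.factorial := by exact_mod_cast Nat.factorial_pos k
        rw [div_le_iff₀ h8] at h1
        linarith
      rwa [h2] at h7
    exact h6.trans (mul_le_mul_of_nonneg_right hfac hD.le)
  have h6 : ((n : ℝ) / (2 * k)) ^ k ≤ DD n k := by
    have h7 : (n : ℝ) / 2 ≤ (n : ℝ) - 2 * k + 1 := by linarith
    have h8 : ((n : ℝ) / 2) ^ k ≤ (k : ℝ) ^ k * DD n k :=
      (pow_le_pow_left₀ (by positivity) h7 k).trans h5
    have h9 : (n : ℝ) / (2 * k) = ((n : ℝ) / 2) / k := by field_simp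
    rw [h9, div_pow, div_le_iff₀ (by positivity)]
    linarith
  have h7 := Real.log_le_log (by positivity) h6
  rw [Real.log_pow] at h7
  have h8 : Real.log ((n : ℝ) / (2 * k)) = Real.log ((n : ℝ) / k) - Real.log 2 := by
    rw [← Real.log_div (by positivity) (by norm_num)]
    congr 1
    field_simp
  rw [h8] at h7
  have h9 := h.log_ratio
  have h10 := h.hL
  have h11 := Real.log_two_lt_d9
  have h12 : Real.log n / 4 ≤ Real.log ((n : ℝ) / k) - Real.log 2 := by linarith
  have h13 := mul_le_mul_of_nonneg_left h12 hk.le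
  linarith

private theorem step_up (h : HypS n k) {u : ℕ} (hu : u + 1 ≤ k) :
    ((n - u).choose k : ℝ) ≤ Real.exp (2 * k / n) * ((n - (u + 1)).choose k : ℝ) := by
  have hn := h.n_pos
  have hk := h.k_pos
  have hks := h.k_small
  have h3 := h.h3
  obtain ⟨M, hM⟩ : ∃ M, n - u = M + 1 := ⟨n - u - 1, by omega⟩
  have h1 : n - (u + 1) = M := by omega
  rw [hM, h1]
  have h2 : M.choose k * (M + 1) = (M + 1).choose k * (M + 1 - k) := Nat.choose_mul_succ_eq M k
  have h4 : (M.choose k : ℝ) * (M + 1) = ((M + 1).choose k : ℝ) * ((M : ℝ) + 1 - k) := by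
    have : ((M.choose k * (M + 1) : ℕ) : ℝ) = (((M + 1).choose k * (M + 1 - k) : ℕ) : ℝ) := by
      rw [h2]
    rw [Nat.cast_mul, Nat.cast_mul, Nat.cast_sub (by omega)] at this
    push_cast at this
    exact this
  have h5 : (n : ℝ) / 2 ≤ (M : ℝ) + 1 - k := by
    have h6 : ((M + 1 : ℕ) : ℝ) = ((n - u : ℕ) : ℝ) := by rw [hM]
    rw [Nat.cast_sub (by omega)] at h6
    push_cast at h6
    have h7 : (u : ℝ) ≤ k := by exact_mod_cast (by omega : u ≤ k)
    linarith
  have h6 : 0 < (M : ℝ) + 1 - k := by linarith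
  have h7 : (M : ℝ) + 1 ≤ Real.exp (2 * k / n) * ((M : ℝ) + 1 - k) := by
    have h8 := Real.add_one_le_exp (2 * (k : ℝ) / n)
    have h9 : (2 * (k : ℝ) / n + 1) * ((M : ℝ) + 1 - k) ≤
        Real.exp (2 * k / n) * ((M : ℝ) + 1 - k) := mul_le_mul_of_nonneg_right h8 h6.le
    refine le_trans ?_ h9
    have h10 : 2 * (k : ℝ) / n * (n / 2) ≤ 2 * (k : ℝ) / n * ((M : ℝ) + 1 - k) :=
      mul_le_mul_of_nonneg_left h5 (by positivity)
    have h11 : 2 * (k : ℝ) / n * (n / 2) = k := by field_simp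
    linarith
  have h8 : (((M + 1).choose k : ℕ) : ℝ) * ((M : ℝ) + 1 - k) ≤
      Real.exp (2 * k / n) * (M.choose k : ℝ) * ((M : ℝ) + 1 - k) := by
    rw [← h4]
    have h9 : (0 : ℝ) ≤ (M.choose k : ℝ) := Nat.cast_nonneg _
    have h10 := mul_le_mul_of_nonneg_left h7 h9
    linarith
  exact le_of_mul_le_mul_right h8 h6

theorem HypS.N_le (h : HypS n k) :
    (n.choose k : ℝ) ≤ Real.exp (2 * ((k : ℝ) ^ 2 / n)) * DD n k := by
  have key : ∀ a : ℕ, a ≤ k →
      (n.choose k : ℝ) ≤ Real.exp (2 * k / n * a) * ((n - a).choose k : ℝ) := by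
    intro a
    induction a with
    | zero =>
      intro _
      simp
    | succ a ih =>
      intro ha
      have h1 := ih (by omega)
      have h2 := step_up h (u := a) ha
      have h3 : Real.exp (2 * k / n * ((a + 1 : ℕ) : ℝ)) =
          Real.exp (2 * k / n * a) * Real.exp (2 * k / n) := by
        rw [← Real.exp_add]
        congr 1
        push_cast
        ring
      rw [h3, mul_assoc]
      exact h1.trans (mul_le_mul_of_nonneg_left h2 (Real.exp_pos _).le)
  have h1 := key k le_rfl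
  have h2 : 2 * (k : ℝ) / n * k = 2 * ((k : ℝ) ^ 2 / n) := by ring
  rw [h2] at h1
  exact h1

theorem HypS.logN_le (h : HypS n k) :
    Real.log (n.choose k : ℝ) ≤ Real.log (DD n k) + 2 * ((k : ℝ) ^ 2 / n) := by
  have h1 := Real.log_le_log h.N_pos h.N_le
  rw [Real.log_mul (Real.exp_pos _).ne' h.D_pos.ne', Real.log_exp] at h1
  linarith

theorem HypS.j_pos (h : HypS n k) : 1 ≤ jj n k := by
  have hk := h.k_pos
  have hn := h.n_pos
  have hL := h.hL
  have h1 : 0 < 11 * ((n : ℝ) / k) * Real.log n := by positivity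
  exact Nat.ceil_pos.mpr h1

theorem HypS.jk_ge (h : HypS n k) : 11 * Real.log n ≤ (k : ℝ) * jj n k / n := by
  have hk := h.k_pos
  have hn := h.n_pos
  have h1 : 11 * ((n : ℝ) / k) * Real.log n ≤ jj n k := Nat.le_ceil _
  rw [le_div_iff₀ hn]
  have h2 := mul_le_mul_of_nonneg_left h1 hk.le
  have h3 : (k : ℝ) * (11 * ((n : ℝ) / k) * Real.log n) = 11 * Real.log n * n := by
    field_simp
  linarith

theorem HypS.j_lt (h : HypS n k) : (jj n k : ℝ) ≤ 11 * ((n : ℝ) / k) * Real.log n + 1 := by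
  have hk := h.k_pos
  have hn := h.n_pos
  have hL := h.hL
  exact (Nat.ceil_lt_add_one (by positivity)).le

theorem HypS.jk_le (h : HypS n k) : (jj n k : ℝ) * k / n ≤ 12 * Real.log n := by
  have hk := h.k_pos
  have hn := h.n_pos
  have hL := h.hL
  have h1 := h.j_lt
  have h3 := h.k_small
  rw [div_le_iff₀ hn]
  have h2 := mul_le_mul_of_nonneg_right h1 hk.le
  have h4 : (11 * ((n : ℝ) / k) * Real.log n + 1) * k = 11 * Real.log n * n + k := by
    field_simp
  nlinarith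

theorem HypS.j_sm (h : HypS n k) : (jj n k : ℝ) ≤ k / 800 := by
  have hk := h.k_pos
  have hn := h.n_pos
  have h1 := h.j_lt
  have h2 : (n : ℝ) / k * Real.log n ≤ k / 10000 := by
    have h3 := h.hlow
    rw [div_mul_eq_mul_div, div_le_div_iff₀ hk (by norm_num)]
    nlinarith
  have h3 := h.k_ge
  have h4 : 11 * ((n : ℝ) / k) * Real.log n = 11 * ((n : ℝ) / k * Real.log n) := by ring
  rw [h4] at h1
  linarith

theorem HypS.j_le (h : HypS n k) : 12 * jj n k ≤ n := by
  have h1 := h.j_sm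
  have h2 := h.k_small
  have hk := h.k_pos
  have h3 : (12 : ℝ) * jj n k ≤ n := by linarith
  exact_mod_cast h3

theorem HypS.e_pos (h : HypS n k) : 0 < xe n k := by
  have h1 := h.D_pos
  have h2 := h.N_pos
  unfold xe
  positivity

theorem HypS.e_small (h : HypS n k) : xe n k ≤ 1 / (n : ℝ) ^ 20 := by
  have hN := h.N_pos
  have hn := h.n_pos
  have hL := h.hL
  have h1 := Pool.Agent.H70.KG.D_le n k h.k_one
  have h2 : xe n k ≤ Real.exp (-((k : ℝ) * k / n)) := by
    unfold xe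
    rw [div_le_iff₀ (by positivity)]
    have h3 := Real.exp_pos (-((k : ℝ) * k / n))
    nlinarith [mul_pos h3 hN]
  refine h2.trans ?_
  have h4 : 1 / (n : ℝ) ^ 20 = Real.exp (-(20 * Real.log n)) := by
    rw [Real.exp_neg, one_div]
    congr 1
    rw [show (20 : ℝ) * Real.log n = ((20 : ℕ) : ℝ) * Real.log n by norm_num,
      Real.exp_nat_mul, Real.exp_log hn]
  rw [h4]
  refine Real.exp_le_exp.mpr (neg_le_neg ?_)
  have h5 := h.K_ge
  have h6 : (k : ℝ) * k / n = (k : ℝ) ^ 2 / n := by ring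
  rw [h6]
  linarith

theorem HypS.eN (h : HypS n k) : 2 * (xe n k * (n.choose k : ℝ)) ≤ DD n k := by
  have hN := h.N_pos
  unfold xe
  refine le_of_eq ?_
  field_simp

theorem HypS.logD_le (h : HypS n k) : Real.log (DD n k) ≤ n :=
  Pool.Agent.H70.KG.log_D_le n k (by have := h.h3; omega)

theorem HypS.T_nonneg (h : HypS n k) : 0 ≤ Real.log (DD n k) - 158 * Real.log n := by
  have h1 := h.logD_ge
  have h2 := h.hL
  have h3 := h.k_ge
  nlinarith

theorem HypS.et_le (h : HypS n k) :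
    xe n k * xt n k ≤ Real.log (DD n k) - 158 * Real.log n := by
  have he := h.e_pos
  have h1 : (xt n k : ℝ) ≤ (Real.log (DD n k) - 158 * Real.log n) / xe n k :=
    Nat.floor_le (div_nonneg h.T_nonneg he.le)
  rw [le_div_iff₀ he] at h1
  linarith

theorem HypS.et_ge (h : HypS n k) :
    Real.log (DD n k) - 158 * Real.log n - 1 ≤ xe n k * xt n k := by
  have he := h.e_pos
  have hn := h.n_pos
  have h1 : (Real.log (DD n k) - 158 * Real.log n) / xe n k < (xt n k : ℝ) + 1 :=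
    Nat.lt_floor_add_one _
  rw [div_lt_iff₀ he] at h1
  have h2 : xe n k ≤ 1 := by
    refine h.e_small.trans ?_
    rw [div_le_one (by positivity)]
    exact one_le_pow₀ (by linarith [h.n_ge])
  nlinarith

theorem HypS.et_n (h : HypS n k) : xe n k * xt n k ≤ n := by
  have h1 := h.et_le
  have h2 := h.logD_le
  have h3 := h.hL
  linarith

theorem HypS.et_big (h : HypS n k) : (k : ℝ) * Real.log n / 5 ≤ xe n k * xt n k := by
  have h1 := h.et_ge
  have h2 := h.logD_ge
  have h3 := h.k_ge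
  have h4 := h.hL
  nlinarith

theorem HypS.tau_pos (h : HypS n k) : 1 ≤ xt n k := by
  have h1 := h.et_big
  have h2 := h.k_ge
  have h3 := h.hL
  by_contra h4
  have h5 : xt n k = 0 := by omega
  rw [h5, Nat.cast_zero, mul_zero] at h1
  nlinarith

theorem HypS.tau_le (h : HypS n k) : (xt n k : ℝ) ≤ 2 * n * ((n.choose k : ℝ) / DD n k) := by
  have he := h.e_pos
  have hD := h.D_pos
  have hN := h.N_pos
  have h1 := h.et_n
  have h2 : (xt n k : ℝ) ≤ n / xe n k := by
    rw [le_div_iff₀ he]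
    linarith
  refine h2.trans (le_of_eq ?_)
  unfold xe
  field_simp

end Pool.Agent.H70.KQ
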