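import Pool.Agent.H70.KQ.SH
import Pool.Agent.H70.KP.CX

/-!
# [H70 KQ SP] the parameters in the sparse range
-/

namespace Pool.Agent.H70.KQ

open Pool.Agent.H70.KG (DD)
open Pool.Agent.H70.KP

variable {n k : ℕ}

private theorem exp_L (h : HypS n k) (m : ℕ) :
    Real.exp (-((m : ℝ) * Real.log n)) = 1 / (n : ℝ) ^ m := by
  rw [Real.exp_neg, one_div, Real.exp_nat_mul, Real.exp_log (h.n_pos)]

theorem HypS.H1 (h : HypS n k) (u : ℕ) (h1 : k ≤ u) (h2 : u < k + 2 * jj n k) :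
    n * (DD n k / (n : ℝ) ^ 156) + 5 * sz n k (u + jj n k) ≤ 1 / (n : ℝ) ^ 10 * sz n k u := by
  have hn := h.n_pos
  have hn6 := h.n_ge
  have hD := h.D_pos
  have hsu := sz_nonneg n k u
  -- the second term
  have e1 : sz n k (u + jj n k) ≤ 1 / (n : ℝ) ^ 11 * sz n k u := by
    refine (sz_step n k u (jj n k) h.k_one).trans (mul_le_mul_of_nonneg_right ?_ hsu)
    have e2 := exp_L h 11
    push_cast at e2
    rw [← e2]
    exact Real.exp_le_exp.mpr (neg_le_neg h.jk_ge)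
  have e3 : 5 * (1 / (n : ℝ) ^ 11 * sz n k u) ≤ 1 / (n : ℝ) ^ 10 * sz n k u / 2 := by
    have e4 : 1 / (n : ℝ) ^ 11 = 1 / (n : ℝ) ^ 10 * (1 / n) := by
      field_simp
    have e5 : (1 : ℝ) / n ≤ 1 / 10 := by
      refine div_le_div_of_nonneg_left zero_le_one (by norm_num) (by linarith)
    have e6 : 0 ≤ 1 / (n : ℝ) ^ 10 * sz n k u := by positivity
    rw [e4]
    nlinarith
  -- the first term
  have e7 : 1 / (n : ℝ) ^ 144 * DD n k ≤ sz n k u := by
    have e8 := sz_lower h.k_one h.h3 h.j_le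
    have e9 : sz n k (k + 2 * jj n k) ≤ sz n k u := sz_anti (by omega)
    refine le_trans ?_ (e8.trans e9)
    refine mul_le_mul_of_nonneg_right ?_ hD.le
    have e10 := exp_L h 144
    push_cast at e10
    rw [← e10]
    refine Real.exp_le_exp.mpr (neg_le_neg ?_)
    have e11 := h.jk_le
    have e12 : (12 : ℝ) * jj n k * k / n = 12 * ((jj n k : ℝ) * k / n) := by ring
    rw [e12]
    linarith
  have e13 : n * (DD n k / (n : ℝ) ^ 156) ≤ 1 / (n : ℝ) ^ 10 * sz n k u / 2 := by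
    have e14 : n * (DD n k / (n : ℝ) ^ 156) =
        1 / (n : ℝ) ^ 10 * (1 / (n : ℝ) ^ 144 * DD n k) * (1 / n) := by
      field_simp
    have e15 : (1 : ℝ) / n ≤ 1 / 2 := by
      refine div_le_div_of_nonneg_left zero_le_one (by norm_num) (by linarith)
    rw [e14]
    have e16 : 0 ≤ 1 / (n : ℝ) ^ 10 * (1 / (n : ℝ) ^ 144 * DD n k) := by positivity
    have e17 : 1 / (n : ℝ) ^ 10 * (1 / (n : ℝ) ^ 144 * DD n k) ≤ 1 / (n : ℝ) ^ 10 * sz n k u :=
      mul_le_mul_of_nonneg_left e7 (by positivity)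
    nlinarith
  linarith

theorem HypS.H2 (h : HypS n k) :
    n * (DD n k / (n : ℝ) ^ 156) + 5 * (n : ℝ) ^ (4 * jj n k) ≤ 1 / (n : ℝ) ^ 10 * DD n k := by
  have hn := h.n_pos
  have hn6 := h.n_ge
  have hD := h.D_pos
  have hL := h.hL
  have e1 : n * (DD n k / (n : ℝ) ^ 156) ≤ 1 / (n : ℝ) ^ 10 * DD n k / 2 := by
    have e2 : n * (DD n k / (n : ℝ) ^ 156) =
        1 / (n : ℝ) ^ 10 * DD n k * (1 / (n : ℝ) ^ 145) := by
      field_simp
    have e3 : (1 : ℝ) / (n : ℝ) ^ 145 ≤ 1 / 2 := by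
      refine div_le_div_of_nonneg_left zero_le_one (by norm_num) ?_
      calc (2 : ℝ) ≤ n := by linarith
        _ = (n : ℝ) ^ 1 := (pow_one _).symm
        _ ≤ (n : ℝ) ^ 145 := pow_le_pow_right₀ (by linarith) (by norm_num)
    rw [e2]
    have e4 : 0 ≤ 1 / (n : ℝ) ^ 10 * DD n k := by positivity
    nlinarith
  have e5 : 5 * (n : ℝ) ^ (4 * jj n k) ≤ 1 / (n : ℝ) ^ 10 * DD n k / 2 := by
    have e6 : (n : ℝ) ^ (4 * jj n k) = Real.exp (4 * jj n k * Real.log n) := by
      have : (4 : ℝ) * jj n k * Real.log n = ((4 * jj n k : ℕ) : ℝ) * Real.log n := by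
        push_cast
        ring
      rw [this, Real.exp_nat_mul, Real.exp_log hn]
    have e7 : (n : ℝ) ^ 11 = Real.exp (11 * Real.log n) := by
      have : (11 : ℝ) * Real.log n = ((11 : ℕ) : ℝ) * Real.log n := by norm_num
      rw [this, Real.exp_nat_mul, Real.exp_log hn]
    have e8 : (n : ℝ) ^ 11 * (n : ℝ) ^ (4 * jj n k) ≤ DD n k := by
      rw [e6, e7, ← Real.exp_add, ← Real.le_log_iff_exp_le hD]
      have e9 := h.j_sm
      have e10 := h.logD_ge
      have e11 := h.k_ge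
      have e12 : (jj n k : ℝ) * Real.log n ≤ k / 800 * Real.log n :=
        mul_le_mul_of_nonneg_right e9 (by linarith)
      nlinarith
    have e9 : 10 * (n : ℝ) ^ 10 ≤ (n : ℝ) ^ 11 := by
      rw [pow_succ (n : ℝ) 10]
      nlinarith [pow_pos hn 10]
    have e10 : 0 < (n : ℝ) ^ (4 * jj n k) := by positivity
    have e11 : 10 * (n : ℝ) ^ 10 * (n : ℝ) ^ (4 * jj n k) ≤ DD n k :=
      (mul_le_mul_of_nonneg_right e9 e10.le).trans e8
    have e12 : 1 / (n : ℝ) ^ 10 * DD n k / 2 = DD n k / (2 * (n : ℝ) ^ 10) := by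
      field_simp
    rw [e12, le_div_iff₀ (by positivity)]
    linarith
  linarith

theorem HypS.H3 (h : HypS n k) :
    2 * Real.exp ((1 + 2 * (1 / (n : ℝ) ^ 2)) * (xe n k * xt n k)) ≤ DD n k / (n : ℝ) ^ 156 := by
  have hn := h.n_pos
  have hn6 := h.n_ge
  have hD := h.D_pos
  have h1 := h.et_le
  have h2 := h.et_n
  have e1 : (1 + 2 * (1 / (n : ℝ) ^ 2)) * (xe n k * xt n k) ≤
      Real.log (DD n k) + -(158 * Real.log n) + 1 := by
    have e2 : 2 * (1 / (n : ℝ) ^ 2) * (xe n k * xt n k) ≤ 2 * (1 / (n : ℝ) ^ 2) * n :=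
      mul_le_mul_of_nonneg_left h2 (by positivity)
    have e3 : 2 * (1 / (n : ℝ) ^ 2) * n = 2 / n := by
      field_simp
    have e4 : (2 : ℝ) / n ≤ 1 := by
      rw [div_le_one hn]
      linarith
    linarith
  have e5 : Real.exp (Real.log (DD n k) + -(158 * Real.log n) + 1) =
      DD n k * (1 / (n : ℝ) ^ 158) * Real.exp 1 := by
    rw [Real.exp_add, Real.exp_add, Real.exp_log hD]
    have e6 := exp_L h 158
    push_cast at e6
    rw [e6]
  have e6 : 2 * Real.exp ((1 + 2 * (1 / (n : ℝ) ^ 2)) * (xe n k * xt n k)) ≤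
      2 * (DD n k * (1 / (n : ℝ) ^ 158) * Real.exp 1) := by
    rw [← e5]
    exact mul_le_mul_of_nonneg_left (Real.exp_le_exp.mpr e1) (by norm_num)
  refine e6.trans ?_
  have e7 : DD n k / (n : ℝ) ^ 156 = DD n k * (1 / (n : ℝ) ^ 158) * (n : ℝ) ^ 2 := by
    field_simp
  rw [e7]
  have e8 : 2 * Real.exp 1 ≤ (n : ℝ) ^ 2 := by
    have := Real.exp_one_lt_d9
    nlinarith
  have e9 : 0 < DD n k * (1 / (n : ℝ) ^ 158) := by positivity
  nlinarith

theorem HypS.keyA (h : HypS n k) :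
    Real.log (n.choose k : ℝ) + 318 * Real.log n ≤
      (1 + (k : ℝ) / (n - k : ℝ)) * Real.log (DD n k) := by
  have hn := h.n_pos
  have hk := h.k_pos
  have hL := h.hL
  have hks := h.k_small
  have hnk : 0 < (n : ℝ) - k := by linarith
  have h1 := h.logN_le
  have h2 := h.logD_ge
  have h3 := h.K_ge
  have h4 : (k : ℝ) / n ≤ (k : ℝ) / (n - k : ℝ) :=
    div_le_div_of_nonneg_left hk.le hnk (by linarith)
  have h5 : (k : ℝ) / n * ((k : ℝ) * Real.log n / 4) ≤
      (k : ℝ) / (n - k : ℝ) * Real.log (DD n k) :=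
    mul_le_mul h4 h2 (by positivity) (by positivity)
  have h6 : (k : ℝ) / n * ((k : ℝ) * Real.log n / 4) = (k : ℝ) ^ 2 / n * (Real.log n / 4) := by
    ring
  rw [h6] at h5
  have h7 : (k : ℝ) ^ 2 / n * 10 ≤ (k : ℝ) ^ 2 / n * (Real.log n / 4) :=
    mul_le_mul_of_nonneg_left (by linarith) (by positivity)
  rw [add_mul, one_mul]
  linarith

theorem HypS.keyB (h : HypS n k) :
    Real.log (n.choose k : ℝ) + 4 * jj n k * Real.log n + 317 * Real.log n + 1 ≤
      2 * Real.log (DD n k) := by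
  have hk := h.k_pos
  have hL := h.hL
  have h1 := h.logN_le
  have h2 := h.logD_ge
  have h3 := h.K_le
  have h4 := h.j_sm
  have h5 := h.k_ge
  have h6 : (jj n k : ℝ) * Real.log n ≤ k / 800 * Real.log n :=
    mul_le_mul_of_nonneg_right h4 (by linarith)
  nlinarith

theorem HypS.H4 (h : HypS n k) :
    ∑ d ∈ Finset.Ico 1 (2 * jj n k), 8 * n * pd n k d *
      Real.exp ((1 + 3 * (1 / (n : ℝ) ^ 2)) * rr n k d * (xe n k * xt n k)) ≤
    (DD n k / (n : ℝ) ^ 156) ^ 2 / 2 := by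
  have hn := h.n_pos
  have hk0 := h.k_pos
  have hL := h.hL
  have hD := h.D_pos
  have hN := h.N_pos
  have hn6 := h.n_ge
  have h3 : (3 : ℝ) * k ≤ n := by exact_mod_cast h.h3
  have hnk : 0 < (n : ℝ) - k := by linarith
  have hlogD := h.logD_le
  have hlogD0 : 0 ≤ Real.log (DD n k) := by
    have h5 := h.logD_ge
    have h6 : 0 ≤ (k : ℝ) * Real.log n / 4 := by positivity
    linarith
  set z := (k : ℝ) / (n - k : ℝ) with hz
  have hz0 : 0 < z := by positivity
  have hz1 : z ≤ 1 := by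
    rw [hz, div_le_one hnk]
    linarith
  set Q := Real.exp (2 * Real.log (DD n k) - 316 * Real.log n) with hQ
  have hQ0 : 0 < Q := Real.exp_pos _
  have hterm : ∀ d ∈ Finset.Ico 1 (2 * jj n k), 8 * n * pd n k d *
      Real.exp ((1 + 3 * (1 / (n : ℝ) ^ 2)) * rr n k d * (xe n k * xt n k)) ≤ 16 * n * Q := by
    intro d hd
    obtain ⟨hd1, hd2⟩ := Finset.mem_Ico.mp hd
    have hr0 := rr_nonneg n k d
    have hr1 := rr_le_one n k d
    have het0 : 0 ≤ xe n k * xt n k := mul_nonneg h.e_pos.le (Nat.cast_nonneg _)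
    -- the exponential
    have e1 : (1 + 3 * (1 / (n : ℝ) ^ 2)) * rr n k d * (xe n k * xt n k) ≤
        Real.log (DD n k) * (1 - z) ^ d + 1 / 2 := by
      have e2 : rr n k d * (xe n k * xt n k) ≤ (1 - z) ^ d * Real.log (DD n k) := by
        have e3 := h.et_le
        exact mul_le_mul (rr_le_pow h.k_one h.h3 d) (by linarith) het0
          (pow_nonneg (by linarith) d)
      have e4 : 3 * (1 / (n : ℝ) ^ 2) * (rr n k d * (xe n k * xt n k)) ≤ 1 / 2 := by
        have e5 : rr n k d * (xe n k * xt n k) ≤ 1 * n :=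
          mul_le_mul hr1 h.et_n het0 zero_le_one
        have e6 := mul_le_mul_of_nonneg_left e5 (by positivity : 0 ≤ 3 * (1 / (n : ℝ) ^ 2))
        have e7 : 3 * (1 / (n : ℝ) ^ 2) * (1 * n) = 3 / n := by
          field_simp
        have e8 : (3 : ℝ) / n ≤ 1 / 2 := by
          rw [div_le_div_iff₀ hn (by norm_num)]
          linarith
        linarith
      have e9 : (1 + 3 * (1 / (n : ℝ) ^ 2)) * rr n k d * (xe n k * xt n k) =
          rr n k d * (xe n k * xt n k) +
            3 * (1 / (n : ℝ) ^ 2) * (rr n k d * (xe n k * xt n k)) := by ring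
      rw [e9]
      linarith
    have ehalf : Real.exp (1 / 2) ≤ 2 := by
      have h9 : Real.exp (1 / 2) ^ 2 ≤ 2 ^ 2 := by
        rw [← Real.exp_nat_mul]
        have : ((2 : ℕ) : ℝ) * (1 / 2) = 1 := by norm_num
        rw [this]
        have := Real.exp_one_lt_d9
        linarith
      exact le_of_sq_le_sq h9 (by norm_num)
    have e2 : Real.exp ((1 + 3 * (1 / (n : ℝ) ^ 2)) * rr n k d * (xe n k * xt n k)) ≤
        Real.exp (Real.log (DD n k) * (1 - z) ^ d) * 2 := by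
      refine (Real.exp_le_exp.mpr e1).trans ?_
      rw [Real.exp_add]
      exact mul_le_mul_of_nonneg_left ehalf (Real.exp_pos _).le
    -- the number of pairs
    have e3 : pd n k d ≤ Real.exp (Real.log (n.choose k : ℝ) + 2 * Real.log n * d) := by
      unfold pd
      rw [Real.exp_add, Real.exp_log hN]
      refine mul_le_mul_of_nonneg_left ?_ hN.le
      have e4 : 2 * Real.log n * d = ((d : ℕ) : ℝ) * (Real.log n + Real.log n) := by ring
      rw [e4, Real.exp_nat_mul, Real.exp_add, Real.exp_log hn]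
      refine pow_le_pow_left₀ (by positivity) ?_ d
      exact mul_le_mul_of_nonneg_right (by linarith) hn.le
    have e4 : Real.log (n.choose k : ℝ) + 2 * Real.log n * d +
        Real.log (DD n k) * (1 - z) ^ d ≤ 2 * Real.log (DD n k) - 316 * Real.log n := by
      have e5 := conv_max (A := Real.log (DD n k)) (b := 2 * Real.log n) (x := 1 - z) hlogD0
        (by linarith) (by linarith) hd1 hd2.le
      have e6 : max (Real.log (DD n k) * (1 - z) + 2 * Real.log n)
          (Real.log (DD n k) * (1 - z) ^ (2 * jj n k) +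
            2 * Real.log n * ((2 * jj n k : ℕ) : ℝ)) ≤
          2 * Real.log (DD n k) - 316 * Real.log n - Real.log (n.choose k : ℝ) := by
        refine max_le ?_ ?_
        · have e7 := h.keyA
          rw [← hz] at e7
          nlinarith
        · have e7 := h.keyB
          have e8 : (1 - z) ^ (2 * jj n k) ≤ 1 / (n : ℝ) ^ 22 := by
            have e9 : 1 - z ≤ Real.exp (-z) := by
              have := Real.add_one_le_exp (-z)
              linarith
            have e10 : (1 - z) ^ (2 * jj n k) ≤ Real.exp (-z) ^ (2 * jj n k) :=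
              pow_le_pow_left₀ (by linarith) e9 _
            refine e10.trans ?_
            rw [← Real.exp_nat_mul]
            have e11 : 1 / (n : ℝ) ^ 22 = Real.exp (-(22 * Real.log n)) := by
              rw [Real.exp_neg, one_div]
              congr 1
              rw [show (22 : ℝ) * Real.log n = ((22 : ℕ) : ℝ) * Real.log n by norm_num,
                Real.exp_nat_mul, Real.exp_log hn]
            rw [e11]
            refine Real.exp_le_exp.mpr ?_
            have e12 := h.jk_ge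
            have e13 : (k : ℝ) / n ≤ z := by
              rw [hz]
              exact div_le_div_of_nonneg_left hk0.le hnk (by linarith)
            have e14 : (jj n k : ℝ) * ((k : ℝ) / n) ≤ jj n k * z :=
              mul_le_mul_of_nonneg_left e13 (Nat.cast_nonneg _)
            have e15 : (k : ℝ) * jj n k / n = jj n k * ((k : ℝ) / n) := by ring
            rw [e15] at e12
            push_cast
            nlinarith
          have e9 : Real.log (DD n k) * (1 - z) ^ (2 * jj n k) ≤ 1 := by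
            have e10 : Real.log (DD n k) * (1 - z) ^ (2 * jj n k) ≤ n * (1 / (n : ℝ) ^ 22) :=
              mul_le_mul hlogD e8 (pow_nonneg (by linarith) _) hn.le
            have e11 : (n : ℝ) * (1 / (n : ℝ) ^ 22) ≤ 1 := by
              rw [mul_one_div, div_le_one (by positivity)]
              calc (n : ℝ) = (n : ℝ) ^ 1 := (pow_one _).symm
                _ ≤ (n : ℝ) ^ 22 := pow_le_pow_right₀ (by linarith) (by norm_num)
            linarith
          push_cast
          linarith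
      have e7 := e5.trans e6
      linarith
    calc 8 * n * pd n k d *
          Real.exp ((1 + 3 * (1 / (n : ℝ) ^ 2)) * rr n k d * (xe n k * xt n k))
        ≤ 8 * n * Real.exp (Real.log (n.choose k : ℝ) + 2 * Real.log n * d) *
          (Real.exp (Real.log (DD n k) * (1 - z) ^ d) * 2) := by
          refine mul_le_mul ?_ e2 (Real.exp_pos _).le (by positivity)
          exact mul_le_mul_of_nonneg_left e3 (by positivity)
      _ = 16 * n * Real.exp (Real.log (n.choose k : ℝ) + 2 * Real.log n * d +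
          Real.log (DD n k) * (1 - z) ^ d) := by
          rw [Real.exp_add (Real.log (n.choose k : ℝ) + 2 * Real.log n * d)]
          ring
      _ ≤ 16 * n * Q := by
          refine mul_le_mul_of_nonneg_left ?_ (by positivity)
          exact Real.exp_le_exp.mpr e4
  have hsum := Finset.sum_le_sum hterm
  rw [Finset.sum_const, Nat.card_Ico, nsmul_eq_mul] at hsum
  refine hsum.trans ?_
  have hcard : ((2 * jj n k - 1 : ℕ) : ℝ) ≤ n := by
    have := h.j_le
    exact_mod_cast (by omega : 2 * jj n k - 1 ≤ n)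
  have hQe : (DD n k / (n : ℝ) ^ 156) ^ 2 / 2 = (n : ℝ) ^ 4 / 2 * Q := by
    have e1 : Q = DD n k ^ 2 / (n : ℝ) ^ 316 := by
      rw [hQ, Real.exp_sub]
      rw [show (2 : ℝ) * Real.log (DD n k) = ((2 : ℕ) : ℝ) * Real.log (DD n k) by norm_num,
        show (316 : ℝ) * Real.log n = ((316 : ℕ) : ℝ) * Real.log n by norm_num,
        Real.exp_nat_mul, Real.exp_nat_mul, Real.exp_log hD, Real.exp_log hn]
    rw [e1]
    field_simp
  rw [hQe]
  calc ((2 * jj n k - 1 : ℕ) : ℝ) * (16 * n * Q) ≤ n * (16 * n * Q) :=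
        mul_le_mul_of_nonneg_right hcard (by positivity)
    _ = 16 * (n : ℝ) ^ 2 * Q := by ring
    _ ≤ (n : ℝ) ^ 4 / 2 * Q := by
        refine mul_le_mul_of_nonneg_right ?_ hQ0.le
        have e1 : (32 : ℝ) ≤ (n : ℝ) ^ 2 := by nlinarith
        have e2 : (n : ℝ) ^ 4 = (n : ℝ) ^ 2 * (n : ℝ) ^ 2 := by ring
        rw [e2]
        nlinarith [sq_nonneg (n : ℝ)]

private theorem n6 (h : HypS n k) : (1000000 : ℝ) ≤ n := by linarith [h.n_ge]

private theorem f_hn (h : HypS n k) : 4 ≤ n := by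
  have h1 := n6 h
  have h2 : (4 : ℝ) ≤ n := by linarith
  exact_mod_cast h2

private theorem inv_le {x c : ℝ} (hx : 1 ≤ x) {m : ℕ} (hm : 1 ≤ m) (hc : 0 < c) (h : 1 / c ≤ x) :
    1 / x ^ m ≤ c := by
  have h1 : x ≤ x ^ m := by
    calc x = x ^ 1 := (pow_one x).symm
      _ ≤ x ^ m := pow_le_pow_right₀ hx hm
  rw [div_le_iff₀ (by positivity)]
  rw [div_le_iff₀ hc] at h
  nlinarith

private theorem f_hsz (h : HypS n k) : 2 * k + 3 * jj n k ≤ n := by
  have h1 := h.h3
  have h2 := h.j_le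
  omega

private theorem f_del1 (h : HypS n k) : 1 / (n : ℝ) ^ 2 ≤ 1 / 2 :=
  inv_le (by linarith [n6 h]) (by norm_num) (by norm_num) (le_trans (by norm_num) (n6 h))

private theorem f_d1le (h : HypS n k) : 2 * (1 / (3 * (n : ℝ) ^ 3)) ≤ 1 / (n : ℝ) ^ 2 := by
  have hn := n6 h
  rw [mul_one_div, div_le_div_iff₀ (by positivity) (by positivity)]
  have : (0 : ℝ) < (n : ℝ) ^ 2 := by positivity
  nlinarith

private theorem f_e1 (h : HypS n k) : 16 * xe n k ≤ 1 / (n : ℝ) ^ 2 := by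
  have hn := n6 h
  have h1 := h.e_small
  have h2 : 1 / (n : ℝ) ^ 20 = 1 / (n : ℝ) ^ 2 * (1 / (n : ℝ) ^ 18) := by field_simp
  have h3 : 1 / (n : ℝ) ^ 18 ≤ 1 / 16 :=
    inv_le (by linarith) (by norm_num) (by norm_num) (le_trans (by norm_num) (n6 h))
  have h4 : 0 < 1 / (n : ℝ) ^ 2 := by positivity
  rw [h2] at h1
  nlinarith

private theorem f_e2 (h : HypS n k) : 4 * n * xe n k ≤ 1 := by
  have hn := n6 h
  have h1 := h.e_small
  have h2 := mul_le_mul_of_nonneg_left h1 (by positivity : (0 : ℝ) ≤ 4 * n)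
  have h3 : 4 * (n : ℝ) * (1 / (n : ℝ) ^ 20) = 4 * (1 / (n : ℝ) ^ 19) := by field_simp
  have h4 : 1 / (n : ℝ) ^ 19 ≤ 1 / 4 :=
    inv_le (by linarith) (by norm_num) (by norm_num) (le_trans (by norm_num) (n6 h))
  linarith

private theorem f_rho1 (h : HypS n k) : 1 / (n : ℝ) ^ 10 ≤ 1 :=
  inv_le (by linarith [n6 h]) (by norm_num) (by norm_num) (le_trans (by norm_num) (n6 h))

private theorem f_aa (h : HypS n k) : 3 * (n : ℝ) ^ 3 * (1 / (n : ℝ) ^ 2) = 3 * n := by
  have hn : (n : ℝ) ≠ 0 := by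
    have := n6 h
    intro h0
    rw [h0] at this
    norm_num at this
  field_simp

private theorem f_aa1 (h : HypS n k) : 9 * (n : ℝ) ^ 4 * (1 / (3 * (n : ℝ) ^ 3)) = 3 * n := by
  have hn : (n : ℝ) ≠ 0 := by
    have := n6 h
    intro h0
    rw [h0] at this
    norm_num at this
  field_simp
  norm_num

private theorem f_ad (h : HypS n k) : 3 * (n : ℝ) ^ 3 * (1 / (3 * (n : ℝ) ^ 3)) ≤ 1 := by
  have hn := n6 h
  have h0 : 3 * (n : ℝ) ^ 3 ≠ 0 := by positivity
  exact (mul_one_div_cancel h0).le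

private theorem f_arho (h : HypS n k) : 3 * (n : ℝ) ^ 3 * (1 / (n : ℝ) ^ 10) ≤ 1 := by
  have hn := n6 h
  have h3 : 3 * (n : ℝ) ^ 3 * (1 / (n : ℝ) ^ 10) = 3 * (1 / (n : ℝ) ^ 7) := by field_simp
  have h4 : 1 / (n : ℝ) ^ 7 ≤ 1 / 3 :=
    inv_le (by linarith) (by norm_num) (by norm_num) (le_trans (by norm_num) (n6 h))
  rw [h3]
  linarith

private theorem f_a1e (h : HypS n k) : 8 * (9 * (n : ℝ) ^ 4) * xe n k ≤ 1 := by
  have hn := n6 h
  have h2 := mul_le_mul_of_nonneg_left h.e_small (by positivity : (0 : ℝ) ≤ 8 * (9 * (n : ℝ) ^ 4))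
  have h3 : 8 * (9 * (n : ℝ) ^ 4) * (1 / (n : ℝ) ^ 20) = 72 * (1 / (n : ℝ) ^ 16) := by
    field_simp
    norm_num
  have h4 : 1 / (n : ℝ) ^ 16 ≤ 1 / 72 :=
    inv_le (by linarith) (by norm_num) (by norm_num) (le_trans (by norm_num) (n6 h))
  rw [h3] at h2
  linarith

private theorem et0 (h : HypS n k) : 0 ≤ xe n k * xt n k :=
  mul_nonneg h.e_pos.le (Nat.cast_nonneg _)

private theorem f_cc (h : HypS n k) : (9 * (n : ℝ) ^ 4) ^ 2 * (64 * xe n k +
    8 * (1 / (n : ℝ) ^ 10)) * (xe n k * xt n k) ≤ n := by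
  have hn := n6 h
  have he := h.e_pos
  have h1 : 64 * xe n k + 8 * (1 / (n : ℝ) ^ 10) ≤ 72 * (1 / (n : ℝ) ^ 10) := by
    have h2 : 1 / (n : ℝ) ^ 20 = 1 / (n : ℝ) ^ 10 * (1 / (n : ℝ) ^ 10) := by field_simp
    have h3 := h.e_small
    have h4 := f_rho1 h
    have h5 : 0 < 1 / (n : ℝ) ^ 10 := by positivity
    rw [h2] at h3
    nlinarith
  have h2 : (9 * (n : ℝ) ^ 4) ^ 2 * (64 * xe n k + 8 * (1 / (n : ℝ) ^ 10)) ≤
      (9 * (n : ℝ) ^ 4) ^ 2 * (72 * (1 / (n : ℝ) ^ 10)) :=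
    mul_le_mul_of_nonneg_left h1 (by positivity)
  have h3 : (9 * (n : ℝ) ^ 4) ^ 2 * (72 * (1 / (n : ℝ) ^ 10)) = 5832 * (1 / (n : ℝ) ^ 2) := by
    field_simp
    norm_num
  have h4 : 5832 * (1 / (n : ℝ) ^ 2) ≤ 1 := by
    rw [mul_one_div, div_le_one (by positivity)]
    nlinarith
  have h5 : (9 * (n : ℝ) ^ 4) ^ 2 * (64 * xe n k + 8 * (1 / (n : ℝ) ^ 10)) ≤ 1 := by linarith
  calc (9 * (n : ℝ) ^ 4) ^ 2 * (64 * xe n k + 8 * (1 / (n : ℝ) ^ 10)) * (xe n k * xt n k)
      ≤ 1 * n := mul_le_mul h5 h.et_n (et0 h) zero_le_one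
    _ = n := one_mul _

private theorem f_c4 (h : HypS n k) :
    (n : ℝ) ^ 2 * (1 / (n : ℝ) ^ 10) * (xe n k * xt n k) ≤ 1 / 2 := by
  have hn := n6 h
  have h1 := mul_le_mul_of_nonneg_left h.et_n
    (by positivity : 0 ≤ (n : ℝ) ^ 2 * (1 / (n : ℝ) ^ 10))
  have h2 : (n : ℝ) ^ 2 * (1 / (n : ℝ) ^ 10) * n = 1 / (n : ℝ) ^ 7 := by field_simp
  have h3 : 1 / (n : ℝ) ^ 7 ≤ 1 / 2 :=
    inv_le (by linarith) (by norm_num) (by norm_num) (le_trans (by norm_num) (n6 h))
  linarith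

private theorem f_dtau (h : HypS n k) :
    3 * (1 / (n : ℝ) ^ 2) * (xe n k * xt n k) ≤ 1 / 2 := by
  have hn := n6 h
  have h1 := mul_le_mul_of_nonneg_left h.et_n (by positivity : 0 ≤ 3 * (1 / (n : ℝ) ^ 2))
  have h2 : 3 * (1 / (n : ℝ) ^ 2) * n = 3 * (1 / (n : ℝ) ^ 1) := by field_simp
  have h3 : 1 / (n : ℝ) ^ 1 ≤ 1 / 6 :=
    inv_le (by linarith) (by norm_num) (by norm_num) (le_trans (by norm_num) (n6 h))
  linarith

/-- The parameters. -/
noncomputable def mkParS (h : HypS n k) : Par n k where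
  j := jj n k
  tau := xt n k
  del := 1 / (n : ℝ) ^ 2
  d1 := 1 / (3 * (n : ℝ) ^ 3)
  a := 3 * (n : ℝ) ^ 3
  a1 := 9 * (n : ℝ) ^ 4
  rho := 1 / (n : ℝ) ^ 10
  e := xe n k
  nu := DD n k / (n : ℝ) ^ 156
  hn := f_hn h
  hk := h.k_one
  hj := h.j_pos
  hsz := f_hsz h
  htau := h.tau_pos
  del0 := div_pos one_pos (pow_pos (h.n_pos) 2)
  del1 := f_del1 h
  d10 := div_pos one_pos (mul_pos (by norm_num) (pow_pos (h.n_pos) 3))
  d1le := f_d1le h
  e0 := h.e_pos
  e1 := f_e1 h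
  e2 := f_e2 h
  eN := h.eN
  rho0 := div_pos one_pos (pow_pos (h.n_pos) 10)
  rho1 := f_rho1 h
  nu0 := div_pos h.D_pos (pow_pos (h.n_pos) 156)
  aa := f_aa h
  aa1 := f_aa1 h
  ad := f_ad h
  arho := f_arho h
  a1e := f_a1e h
  cc := f_cc h
  c4 := f_c4 h
  dtau := f_dtau h
  H1 := h.H1
  H2 := h.H2
  H3 := h.H3
  H4 := h.H4

end Pool.Agent.H70.KQ
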