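import Pool.Agent.H70.KQ.SP
import Pool.Agent.H70.KP.PB

/-!
# [H70 KQ ST] final numerical bounds in the sparse range
-/

namespace Pool.Agent.H70.KQ

open Pool.Agent.H70.KG (DD)
open Pool.Agent.H70.KP

variable {n k : ℕ}

private theorem one_sub_exp {x : ℝ} (h0 : 0 ≤ x) (h1 : x ≤ 1) : x / 2 ≤ 1 - Real.exp (-x) := by
  have h2 := Real.add_one_le_exp x
  have h3 : Real.exp x * Real.exp (-x) = 1 := by
    rw [← Real.exp_add, add_neg_cancel, Real.exp_zero]
  have h4 := Real.exp_pos (-x)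
  have h5 : (x + 1) * Real.exp (-x) ≤ 1 :=
    (mul_le_mul_of_nonneg_right h2 h4.le).trans_eq h3
  have h6 : Real.exp (-x) ≤ 1 / (x + 1) := by
    rw [le_div_iff₀ (by linarith)]
    linarith
  have h7 : 1 / (x + 1) ≤ 1 - x / 2 := by
    rw [div_le_iff₀ (by linarith)]
    nlinarith
  linarith

theorem HypS.rate (h : HypS n k) {d : ℕ} (hd1 : 1 ≤ d) (hd2 : d < jj n k) :
    2 * d * Real.log n + 3 * ((k : ℝ) ^ 2 / n) + 4 * Real.log n + 10 ≤
      (1 - rr n k d) * (xe n k * xt n k) := by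
  have hn := h.n_pos
  have hk := h.k_pos
  have hk6 := h.k_ge
  have hL := h.hL
  have het := h.et_big
  have hr := rr_le_exp h.k_one h.h3 d
  have hr1 := rr_le_one n k d
  have hd0 : (1 : ℝ) ≤ d := by exact_mod_cast hd1
  have hdj : (d : ℝ) ≤ jj n k := by exact_mod_cast hd2.le
  have hK := h.K_ge
  have hK2 := h.K_le
  set K := (k : ℝ) ^ 2 / n with hKd
  have hK0 : 0 < K := by positivity
  set L := Real.log n with hLd
  set x := (k : ℝ) * d / n with hx
  have hx0 : 0 ≤ x := by positivity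
  have h1 : (1 - rr n k d) * ((k : ℝ) * L / 5) ≤ (1 - rr n k d) * (xe n k * xt n k) :=
    mul_le_mul_of_nonneg_left het (by linarith)
  refine le_trans ?_ h1
  rcases le_total x 1 with hx1 | hx1
  · have h2 := one_sub_exp hx0 hx1
    have h3 : x / 2 * ((k : ℝ) * L / 5) ≤ (1 - rr n k d) * ((k : ℝ) * L / 5) :=
      mul_le_mul_of_nonneg_right (by linarith) (by positivity)
    refine le_trans ?_ h3
    have h4 : x / 2 * ((k : ℝ) * L / 5) = K * d * (L / 10) := by
      rw [hx, hKd]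
      ring
    rw [h4]
    have h5 : K * d * 4 ≤ K * d * (L / 10) :=
      mul_le_mul_of_nonneg_left (by linarith) (by positivity)
    refine le_trans ?_ h5
    have h6 : K ≤ K * d := by nlinarith
    have h7 : 10000 * L * d ≤ K * d := mul_le_mul_of_nonneg_right hK (by linarith)
    have h8 : L ≤ L * d := by nlinarith
    nlinarith
  · have h2 : Real.exp (-x) ≤ 1 / 2 := by
      have h3 : Real.exp (-x) ≤ Real.exp (-1) := Real.exp_le_exp.mpr (by linarith)
      have h4 := one_sub_exp zero_le_one le_rfl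
      linarith
    have h3 : (1 / 2 : ℝ) * ((k : ℝ) * L / 5) ≤ (1 - rr n k d) * ((k : ℝ) * L / 5) :=
      mul_le_mul_of_nonneg_right (by linarith) (by positivity)
    refine le_trans ?_ h3
    have h4 := h.j_sm
    have h5 : (d : ℝ) * L ≤ k / 800 * L :=
      mul_le_mul_of_nonneg_right (by linarith) (by linarith)
    nlinarith

private theorem de_le (h : HypS n k) : 1 / (n : ℝ) ^ 2 * (xe n k * xt n k) ≤ 1 := by
  have hn := h.n_pos
  have hn6 := h.n_ge
  have h1 := mul_le_mul_of_nonneg_left h.et_n (by positivity : 0 ≤ 1 / (n : ℝ) ^ 2)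
  have h2 : 1 / (n : ℝ) ^ 2 * n = 1 / n := by field_simp
  have h4 : 1 / (n : ℝ) ≤ 1 := by
    rw [div_le_one hn]
    linarith
  linarith

private theorem exp_three : Real.exp 1 ≤ 3 := by
  have := Real.exp_one_lt_d9
  linarith

private theorem two_le_exp : (2 : ℝ) ≤ Real.exp 1 := by
  have := Real.exp_one_gt_d9
  linarith

theorem HypS.hA (h : HypS n k) {d : ℕ} (hd : d ∈ Finset.Ico 1 (mkParS h).j) :
    8 * n * (mkParS h).G0 d *
      Real.exp (-((1 - rr n k d - (mkParS h).del) * ((mkParS h).e * (mkParS h).tau))) < 1 := by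
  have hn := h.n_pos
  have hk := h.k_pos
  have hD := h.D_pos
  have hN := h.N_pos
  have hL := h.hL
  have het0 : 0 ≤ xe n k * xt n k := mul_nonneg h.e_pos.le (Nat.cast_nonneg _)
  have hetn := h.et_n
  have hks := h.k_small
  have c1 : (mkParS h).tau = xt n k := rfl
  have c2 : (mkParS h).j = jj n k := rfl
  have c3 : (mkParS h).del = 1 / (n : ℝ) ^ 2 := rfl
  have c4 : (mkParS h).e = xe n k := rfl
  rw [c2] at hd
  obtain ⟨hd1, hd2⟩ := Finset.mem_Ico.mp hd
  have hrate := h.rate hd1 hd2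
  have hde := de_le h
  have hKL := h.K_ge
  set K := (k : ℝ) ^ 2 / n with hKd
  set R := (n.choose k : ℝ) / DD n k with hR
  have hR0 : 0 < R := by positivity
  have hR1 : R ≤ Real.exp (2 * K) := by
    rw [hR, div_le_iff₀ hD]
    exact h.N_le
  have hG : 8 * n * (mkParS h).G0 d ≤
      Real.exp (5 + 2 * Real.log n + 2 * K + 2 * d * Real.log n) := by
    have e1 : 8 * n * (mkParS h).G0 d =
        32 * n * (xe n k * xt n k) * R * ((k : ℝ) * n) ^ d := by
      unfold Par.G0 pd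
      rw [c1, c4, hR]
      ring
    have e2 : ((k : ℝ) * n) ^ d ≤ Real.exp (2 * d * Real.log n) := by
      have e4 : 2 * (d : ℝ) * Real.log n = ((d : ℕ) : ℝ) * (Real.log n + Real.log n) := by ring
      rw [e4, Real.exp_nat_mul, Real.exp_add, Real.exp_log hn]
      refine pow_le_pow_left₀ (by positivity) ?_ d
      exact mul_le_mul_of_nonneg_right (by linarith) hn.le
    have e3 : 32 * (n : ℝ) * (xe n k * xt n k) ≤ Real.exp (5 + 2 * Real.log n) := by
      have e4 : Real.exp (5 + 2 * Real.log n) = Real.exp 1 ^ 5 * (n : ℝ) ^ 2 := by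
        rw [Real.exp_add, ← Real.exp_nat_mul,
          show (2 : ℝ) * Real.log n = ((2 : ℕ) : ℝ) * Real.log n by norm_num,
          Real.exp_nat_mul, Real.exp_log hn]
        norm_num
      have e5 : (32 : ℝ) ≤ Real.exp 1 ^ 5 := by
        calc (32 : ℝ) = 2 ^ 5 := by norm_num
          _ ≤ Real.exp 1 ^ 5 := pow_le_pow_left₀ (by norm_num) two_le_exp 5
      rw [e4]
      calc 32 * (n : ℝ) * (xe n k * xt n k) ≤ 32 * (n : ℝ) * n :=
            mul_le_mul_of_nonneg_left hetn (by positivity)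
        _ = 32 * (n : ℝ) ^ 2 := by ring
        _ ≤ Real.exp 1 ^ 5 * (n : ℝ) ^ 2 := mul_le_mul_of_nonneg_right e5 (by positivity)
    have e4 : Real.exp (5 + 2 * Real.log n + 2 * K + 2 * d * Real.log n) =
        Real.exp (5 + 2 * Real.log n) * Real.exp (2 * K) * Real.exp (2 * d * Real.log n) := by
      rw [← Real.exp_add, ← Real.exp_add]
    rw [e1, e4]
    refine mul_le_mul ?_ e2 (by positivity) (by positivity)
    exact mul_le_mul e3 hR1 hR0.le (Real.exp_pos _).le
  have hE : Real.exp (-((1 - rr n k d - (mkParS h).del) * ((mkParS h).e * (mkParS h).tau))) ≤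
      Real.exp (1 - (1 - rr n k d) * (xe n k * xt n k)) := by
    rw [c1, c3, c4]
    refine Real.exp_le_exp.mpr ?_
    have e3 : -((1 - rr n k d - 1 / (n : ℝ) ^ 2) * (xe n k * xt n k)) =
        1 / (n : ℝ) ^ 2 * (xe n k * xt n k) - (1 - rr n k d) * (xe n k * xt n k) := by ring
    rw [e3]
    linarith
  have hprod : 8 * n * (mkParS h).G0 d *
      Real.exp (-((1 - rr n k d - (mkParS h).del) * ((mkParS h).e * (mkParS h).tau))) ≤
      Real.exp (5 + 2 * Real.log n + 2 * K + 2 * d * Real.log n) *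
        Real.exp (1 - (1 - rr n k d) * (xe n k * xt n k)) :=
    mul_le_mul hG hE (Real.exp_pos _).le (Real.exp_pos _).le
  refine lt_of_le_of_lt hprod ?_
  rw [← Real.exp_add]
  refine lt_of_lt_of_eq (Real.exp_lt_exp.mpr ?_) Real.exp_zero
  linarith

theorem HypS.keyA' (h : HypS n k) :
    Real.log (n.choose k : ℝ) + 1000 * Real.log n ≤
      (1 + (k : ℝ) / (n - k : ℝ)) * Real.log (DD n k) := by
  have hn := h.n_pos
  have hk := h.k_pos
  have hL := h.hL
  have hks := h.k_small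
  have hnk : 0 < (n : ℝ) - k := by linarith
  have h1 := h.logN_le
  have h2 := h.logD_ge
  have h3 := h.K_ge
  have h4 : (k : ℝ) / n ≤ (k : ℝ) / (n - k : ℝ) :=
    div_le_div_of_nonneg_left hk.le hnk (by linarith)
  have h5 : (k : ℝ) / n * ((k : ℝ) * Real.log n / 4) ≤
      (k : ℝ) / (n - k : ℝ) * Real.log (DD n k) :=
    mul_le_mul h4 h2 (by positivity) (by positivity)
  have h6 : (k : ℝ) / n * ((k : ℝ) * Real.log n / 4) = (k : ℝ) ^ 2 / n * (Real.log n / 4) := by
    ring
  rw [h6] at h5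
  have h7 : (k : ℝ) ^ 2 / n * 10 ≤ (k : ℝ) ^ 2 / n * (Real.log n / 4) :=
    mul_le_mul_of_nonneg_left (by linarith) (by positivity)
  rw [add_mul, one_mul]
  linarith

theorem HypS.hB (h : HypS n k) :
    8 * n * pd n k 1 * Real.exp ((1 + 3 * (mkParS h).del) * rr n k 1 *
      ((mkParS h).e * (mkParS h).tau)) <
    Real.exp (2 * ((1 - (mkParS h).del) * ((mkParS h).e * (mkParS h).tau))) := by
  have hn := h.n_pos
  have hk := h.k_pos
  have hD := h.D_pos
  have hN := h.N_pos
  have hL := h.hL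
  have hks := h.k_small
  have hnk : 0 < (n : ℝ) - k := by linarith
  have het0 : 0 ≤ xe n k * xt n k := mul_nonneg h.e_pos.le (Nat.cast_nonneg _)
  have c1 : (mkParS h).tau = xt n k := rfl
  have c3 : (mkParS h).del = 1 / (n : ℝ) ^ 2 := rfl
  have c4 : (mkParS h).e = xe n k := rfl
  rw [c1, c3, c4]
  have hde := de_le h
  have hr0 := rr_nonneg n k 1
  have hr1 := rr_le_one n k 1
  have hkey := h.keyA'
  have hetge := h.et_ge
  set z := (k : ℝ) / (n - k : ℝ) with hz
  have hz0 : 0 < z := by positivity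
  have hz1 : z ≤ 1 := by
    rw [hz, div_le_one hnk]
    linarith
  have hrz : rr n k 1 ≤ 1 - z := by
    have := rr_le_pow h.k_one h.h3 1
    rwa [pow_one] at this
  have hp : 8 * n * pd n k 1 ≤
      Real.exp (3 + 3 * Real.log n + Real.log (n.choose k : ℝ)) := by
    have e1 : Real.exp (3 + 3 * Real.log n + Real.log (n.choose k : ℝ)) =
        Real.exp 1 ^ 3 * (n : ℝ) ^ 3 * (n.choose k : ℝ) := by
      rw [Real.exp_add, Real.exp_add, Real.exp_log hN, ← Real.exp_nat_mul,
        show (3 : ℝ) * Real.log n = ((3 : ℕ) : ℝ) * Real.log n by norm_num,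
        Real.exp_nat_mul, Real.exp_log hn]
      norm_num
    have e2 : (8 : ℝ) ≤ Real.exp 1 ^ 3 := by
      calc (8 : ℝ) = 2 ^ 3 := by norm_num
        _ ≤ Real.exp 1 ^ 3 := pow_le_pow_left₀ (by norm_num) two_le_exp 3
    rw [e1]
    unfold pd
    rw [pow_one]
    have e3 : (n : ℝ) * ((k : ℝ) * n) ≤ (n : ℝ) ^ 3 := by
      have : (k : ℝ) * n ≤ n * n := mul_le_mul_of_nonneg_right (by linarith) hn.le
      nlinarith
    calc 8 * (n : ℝ) * ((n.choose k : ℝ) * ((k : ℝ) * n)) =
          8 * ((n : ℝ) * ((k : ℝ) * n)) * (n.choose k : ℝ) := by ring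
      _ ≤ Real.exp 1 ^ 3 * (n : ℝ) ^ 3 * (n.choose k : ℝ) := by
          refine mul_le_mul_of_nonneg_right ?_ hN.le
          exact mul_le_mul e2 e3 (by positivity) (by positivity)
  refine lt_of_le_of_lt (mul_le_mul_of_nonneg_right hp (Real.exp_pos _).le) ?_
  rw [← Real.exp_add]
  refine Real.exp_lt_exp.mpr ?_
  have e1 : (1 + 3 * (1 / (n : ℝ) ^ 2)) * rr n k 1 * (xe n k * xt n k) ≤
      (1 - z) * (xe n k * xt n k) + 3 := by
    have e2 : rr n k 1 * (xe n k * xt n k) ≤ (1 - z) * (xe n k * xt n k) :=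
      mul_le_mul_of_nonneg_right hrz het0
    have e3 : 3 * (1 / (n : ℝ) ^ 2) * rr n k 1 * (xe n k * xt n k) ≤ 3 := by
      calc 3 * (1 / (n : ℝ) ^ 2) * rr n k 1 * (xe n k * xt n k)
          = 3 * rr n k 1 * (1 / (n : ℝ) ^ 2 * (xe n k * xt n k)) := by ring
        _ ≤ 3 * rr n k 1 * 1 := mul_le_mul_of_nonneg_left hde (by positivity)
        _ ≤ 3 := by linarith
    have e4 : (1 + 3 * (1 / (n : ℝ) ^ 2)) * rr n k 1 * (xe n k * xt n k) =
        rr n k 1 * (xe n k * xt n k) +
          3 * (1 / (n : ℝ) ^ 2) * rr n k 1 * (xe n k * xt n k) := by ring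
    rw [e4]
    linarith
  have e5 : 2 * ((1 - 1 / (n : ℝ) ^ 2) * (xe n k * xt n k)) =
      2 * (xe n k * xt n k) - 2 * (1 / (n : ℝ) ^ 2 * (xe n k * xt n k)) := by ring
  rw [e5]
  have e6 : (1 + z) * (Real.log (DD n k) - 158 * Real.log n - 1) ≤
      (1 + z) * (xe n k * xt n k) := mul_le_mul_of_nonneg_left hetge (by linarith)
  have e7 : (1 + z) * (158 * Real.log n + 1) ≤ 2 * (158 * Real.log n + 1) :=
    mul_le_mul_of_nonneg_right (by linarith) (by linarith)
  nlinarith

theorem HypS.hC (h : HypS n k) :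
    ((mkParS h).tau : ℝ) + 2 * (n.choose k : ℝ) *
          Real.exp (-((1 - (mkParS h).del) * ((mkParS h).e * (mkParS h).tau))) ≤
      (n : ℝ) ^ 160 * ((n.choose k : ℝ) / DD n k) := by
  have hn := h.n_pos
  have hn6 := h.n_ge
  have hD := h.D_pos
  have hN := h.N_pos
  have hde := de_le h
  set R := (n.choose k : ℝ) / DD n k with hR
  have hR0 : 0 < R := by positivity
  have c1 : (mkParS h).tau = xt n k := rfl
  have c3 : (mkParS h).del = 1 / (n : ℝ) ^ 2 := rfl
  have c4 : (mkParS h).e = xe n k := rfl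
  rw [c1, c3, c4]
  have hlast : 2 * (n.choose k : ℝ) *
      Real.exp (-((1 - 1 / (n : ℝ) ^ 2) * (xe n k * xt n k))) ≤ 18 * (n : ℝ) ^ 158 * R := by
    have e1 := h.et_ge
    have e2 : -((1 - 1 / (n : ℝ) ^ 2) * (xe n k * xt n k)) ≤
        1 + 1 + (158 * Real.log n - Real.log (DD n k)) := by
      have e3 : -((1 - 1 / (n : ℝ) ^ 2) * (xe n k * xt n k)) =
          1 / (n : ℝ) ^ 2 * (xe n k * xt n k) - xe n k * xt n k := by ring
      rw [e3]
      linarith
    have e3 : Real.exp (1 + 1 + (158 * Real.log n - Real.log (DD n k))) ≤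
        9 * ((n : ℝ) ^ 158 / DD n k) := by
      rw [Real.exp_add, Real.exp_add, Real.exp_sub,
        show (158 : ℝ) * Real.log n = ((158 : ℕ) : ℝ) * Real.log n by norm_num,
        Real.exp_nat_mul, Real.exp_log hn, Real.exp_log hD]
      refine mul_le_mul_of_nonneg_right ?_ (by positivity)
      calc Real.exp 1 * Real.exp 1 ≤ 3 * 3 :=
            mul_le_mul exp_three exp_three (Real.exp_pos _).le (by norm_num)
        _ = 9 := by norm_num
    calc 2 * (n.choose k : ℝ) * Real.exp (-((1 - 1 / (n : ℝ) ^ 2) * (xe n k * xt n k)))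
        ≤ 2 * (n.choose k : ℝ) * (9 * ((n : ℝ) ^ 158 / DD n k)) :=
          mul_le_mul_of_nonneg_left ((Real.exp_le_exp.mpr e2).trans e3) (by positivity)
      _ = 18 * (n : ℝ) ^ 158 * R := by
          rw [hR]
          ring
  have htau := h.tau_le
  rw [← hR] at htau
  have hfin : 2 * (n : ℝ) * R + 18 * (n : ℝ) ^ 158 * R ≤ (n : ℝ) ^ 160 * R := by
    have e1 : (n : ℝ) ≤ (n : ℝ) ^ 158 := by
      calc (n : ℝ) = (n : ℝ) ^ 1 := (pow_one _).symm
        _ ≤ (n : ℝ) ^ 158 := pow_le_pow_right₀ (by linarith) (by norm_num)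
    have e3 : (n : ℝ) ^ 160 = (n : ℝ) ^ 2 * (n : ℝ) ^ 158 := by
      rw [← pow_add]
    have e4 : (20 : ℝ) ≤ (n : ℝ) ^ 2 := by nlinarith
    have e5 : 0 < (n : ℝ) ^ 158 := by positivity
    have e6 : 2 * (n : ℝ) + 18 * (n : ℝ) ^ 158 ≤ (n : ℝ) ^ 160 := by
      rw [e3]
      nlinarith
    have e7 := mul_le_mul_of_nonneg_right e6 hR0.le
    linarith
  linarith

end Pool.Agent.H70.KQ
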