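import Pool.Agent.H70.KQ.SF
import Pool.Agent.H14.KD.NF

/-!
# [H70 KQ TH] all k >= 1 and n >= 2k, upper bound with a power of k

k >= k0: `third_k` (3k <= n) and `H14.KD.dense` (n <= 3k, n^C <= (3k)^C <= k^(2C)).
k < k0: all k-subsets of a fixed set of 2k-1 elements, C(2k-1,k) <= 2^(2k-1) <= k^(2 k0) for k >= 2,
= 1 for k = 1.
-/

namespace Pool.Agent.H70.KQ

open Finset
open Pool.Agent.H70.KG (DD)
open Pool.Agent.H31.Kn (IsInt)

private theorem one_le_R {n k : ℕ} (h : 2 * k ≤ n) :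
    (1 : ℝ) ≤ (n.choose k : ℝ) / ((n - k).choose k : ℝ) := by
  have hD : (0 : ℝ) < ((n - k).choose k : ℝ) := by
    exact_mod_cast Nat.choose_pos (by omega)
  rw [one_le_div hD]
  exact_mod_cast Nat.choose_le_choose k (by omega)

/-- All `k`-subsets of a set with `2 k - 1` elements. -/
private theorem clique {n k : ℕ} (hk : 1 ≤ k) (h : 2 * k ≤ n) :
    ∃ F : Finset (Finset (Fin n)), Maximal (IsInt n k) F ∧ F.card = (2 * k - 1).choose k := by
  have hF : Maximal (IsInt (2 * k - 1) k)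
      ((univ : Finset (Fin (2 * k - 1))).powersetCard k) := by
    refine ⟨⟨fun A hA => (mem_powersetCard.mp hA).2, fun A hA B hB => ?_⟩, fun G hG _ A hA => ?_⟩
    · have h1 := (mem_powersetCard.mp hA).2
      have h2 := (mem_powersetCard.mp hB).2
      have h3 := card_union_add_card_inter A B
      have h4 : (A ∪ B).card ≤ 2 * k - 1 := by
        have := card_le_univ (A ∪ B)
        rwa [Fintype.card_fin] at this
      rw [← card_pos]
      omega
    · exact mem_powersetCard.mpr ⟨subset_univ _, hG.1 A hA⟩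
  obtain ⟨F', hF', hc⟩ := lift_max (n := n) (by omega) (by omega : k ≤ 2 * k - 1) hF
    (fun T0 hT0 => ⟨T0ᶜ, mem_powersetCard.mpr ⟨subset_univ _, by
      rw [card_compl, Fintype.card_fin]
      omega⟩, disjoint_compl_right⟩)
  refine ⟨F', hF', ?_⟩
  rw [hc, card_powersetCard, card_univ, Fintype.card_fin]

theorem all_k : ∃ C : ℕ, ∀ n k : ℕ, 1 ≤ k → 2 * k ≤ n →
    ∃ F : Finset (Finset (Fin n)), Maximal (IsInt n k) F ∧
      (F.card : ℝ) ≤ (k : ℝ) ^ C * ((n.choose k : ℝ) / ((n - k).choose k : ℝ)) := by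
  obtain ⟨C1, k1, h1⟩ := third_k
  obtain ⟨C2, n2, h2⟩ := Pool.Agent.H14.KD.dense
  set K := max (max k1 n2) 3 with hK
  refine ⟨C1 + 2 * C2 + 2 * K, fun n k hk hn => ?_⟩
  have hkR : (1 : ℝ) ≤ k := by exact_mod_cast hk
  have hR := one_le_R hn
  have hpow : ∀ c : ℕ, c ≤ C1 + 2 * C2 + 2 * K →
      (k : ℝ) ^ c ≤ (k : ℝ) ^ (C1 + 2 * C2 + 2 * K) := fun c hc => pow_le_pow_right₀ hkR hc
  rcases Nat.lt_or_ge k K with hlt | hge
  · obtain ⟨F, hF, hc⟩ := clique hk hn
    refine ⟨F, hF, ?_⟩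
    have h3 : (F.card : ℝ) ≤ (k : ℝ) ^ (2 * K) := by
      rw [hc]
      rcases Nat.lt_or_ge k 2 with h4 | h4
      · have h5 : k = 1 := by omega
        rw [h5]
        simp
      · have h5 : (2 * k - 1).choose k ≤ k ^ (2 * K) :=
          calc (2 * k - 1).choose k ≤ 2 ^ (2 * k - 1) := Nat.choose_le_two_pow _ _
            _ ≤ 2 ^ (2 * K) := Nat.pow_le_pow_right (by norm_num) (by omega)
            _ ≤ k ^ (2 * K) := Nat.pow_le_pow_left h4 _
        exact_mod_cast h5
    have h4 := h3.trans (hpow (2 * K) (by omega))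
    have h5 : (0 : ℝ) ≤ (k : ℝ) ^ (C1 + 2 * C2 + 2 * K) := by positivity
    have h6 := mul_le_mul_of_nonneg_left hR h5
    linarith
  · have hk1 : k1 ≤ k := (le_max_left _ _).trans ((le_max_left _ _).trans hge)
    have hk2 : n2 ≤ k := (le_max_right _ _).trans ((le_max_left _ _).trans hge)
    have hk3 : 3 ≤ k := (le_max_right _ _).trans hge
    rcases Nat.le_total (3 * k) n with h3 | h3
    · obtain ⟨F, hF, hc⟩ := h1 n k hk1 h3
      exact ⟨F, hF, hc.trans (mul_le_mul_of_nonneg_right (hpow C1 (by omega)) (by linarith))⟩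
    · obtain ⟨F, hF, hc⟩ := h2 n k (by omega) h3 hn
      refine ⟨F, hF, hc.trans (mul_le_mul_of_nonneg_right ?_ ?_)⟩
      · have h4 : (n : ℝ) ≤ (k : ℝ) ^ 2 := by
          have h5 : n ≤ k ^ 2 := by nlinarith
          exact_mod_cast h5
        have h5 : (n : ℝ) ^ C2 ≤ ((k : ℝ) ^ 2) ^ C2 := pow_le_pow_left₀ (Nat.cast_nonneg n) h4 _
        rw [← pow_mul] at h5
        exact h5.trans (hpow (2 * C2) (by omega))
      · exact le_trans zero_le_one hR

end Pool.Agent.H70.KQ
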